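import Pool.Agent.TKP.Def

set_option autoImplicit false

namespace Pool.Agent.TKP

open MvPolynomial

/-- Unfold `Box` (`MvPolynomial.mem_restrictSupport_iff`) and `degreeOf_le_iff`. -/
theorem mem_Box (m n : ℕ) (P : Pol) :
    P ∈ Box m n ↔ P.degreeOf 0 ≤ m ∧ P.degreeOf 1 ≤ n := by
  rw [Box, mem_restrictSupport_iff, degreeOf_le_iff, degreeOf_le_iff]
  constructor
  · intro h
    exact ⟨fun s hs => (h hs).1, fun s hs => (h hs).2⟩
  · rintro ⟨h1, h2⟩ s hs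
    exact ⟨h1 s hs, h2 s hs⟩

/-- The exponents of the box. -/
private noncomputable def expEquiv (m n : ℕ) :
    {s : Fin 2 →₀ ℕ | s 0 ≤ m ∧ s 1 ≤ n} ≃ Fin (m + 1) × Fin (n + 1) where
  toFun s := (⟨s.1 0, Nat.lt_succ_of_le s.2.1⟩, ⟨s.1 1, Nat.lt_succ_of_le s.2.2⟩)
  invFun p := ⟨Finsupp.equivFunOnFinite.symm ![(p.1 : ℕ), (p.2 : ℕ)],
    ⟨Nat.le_of_lt_succ p.1.2, Nat.le_of_lt_succ p.2.2⟩⟩
  left_inv s := by
    refine Subtype.ext (Finsupp.ext fun i => ?_)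
    fin_cases i
    · rfl
    · rfl
  right_inv p := by
    refine Prod.ext (Fin.ext ?_) (Fin.ext ?_)
    · rfl
    · rfl

/-- `basisRestrictSupport` is indexed by the finite set of exponents `s` with `s 0 ≤ m`,
`s 1 ≤ n`. -/
instance finite_Box (m n : ℕ) : Module.Finite ℚ (Box m n) := by
  have : Finite {s : Fin 2 →₀ ℕ | s 0 ≤ m ∧ s 1 ≤ n} := Finite.of_equiv _ (expEquiv m n).symm
  exact Module.Finite.of_basis
    (basisRestrictSupport ℚ {s : Fin 2 →₀ ℕ | s 0 ≤ m ∧ s 1 ≤ n})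

/-- The index set of `basisRestrictSupport` is in bijection with `Fin (m + 1) × Fin (n + 1)`. -/
theorem finrank_Box (m n : ℕ) : Module.finrank ℚ (Box m n) = (m + 1) * (n + 1) := by
  have h1 := Module.finrank_eq_nat_card_basis
    (basisRestrictSupport ℚ {s : Fin 2 →₀ ℕ | s 0 ≤ m ∧ s 1 ≤ n})
  have h2 : Nat.card {s : Fin 2 →₀ ℕ | s 0 ≤ m ∧ s 1 ≤ n} = (m + 1) * (n + 1) := by
    rw [Nat.card_congr (expEquiv m n), Nat.card_prod, Nat.card_fin, Nat.card_fin]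
  rw [← h2, ← h1]
  rfl

instance finite_BI (m n : ℕ) (I : Ideal Pol) : Module.Finite ℚ (BI m n I) := by
  unfold BI
  exact Submodule.finiteDimensional_inf_left _ _

theorem mem_BI (m n : ℕ) (I : Ideal Pol) (P : Pol) : P ∈ BI m n I ↔ P ∈ Box m n ∧ P ∈ I :=
  Iff.rfl

theorem mem_BM (m n : ℕ) (F P : Pol) : P ∈ BM m n F ↔ P ∈ Box m n ∧ F ∣ P := by
  rw [BM, mem_BI, Ideal.mem_span_singleton]

/-- Product of boxes: `degreeOf_mul_le`. -/
theorem mul_mem_Box {m n m' n' : ℕ} {P Q : Pol} (hP : P ∈ Box m n) (hQ : Q ∈ Box m' n') :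
    P * Q ∈ Box (m + m') (n + n') := by
  rw [mem_Box] at hP hQ ⊢
  exact ⟨(degreeOf_mul_le _ _ _).trans (add_le_add hP.1 hQ.1),
    (degreeOf_mul_le _ _ _).trans (add_le_add hP.2 hQ.2)⟩

/-- A divisor of a nonzero member of the box is in the complementary box:
`MvPolynomial.degreeOf_mul_eq`. -/
theorem div_mem_Box {m n : ℕ} {F Q : Pol} (h : F * Q ∈ Box m n) (h0 : F * Q ≠ 0) :
    F.degreeOf 0 ≤ m ∧ F.degreeOf 1 ≤ n ∧ Q ∈ Box (m - F.degreeOf 0) (n - F.degreeOf 1) := by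
  have hF : F ≠ 0 := left_ne_zero_of_mul h0
  have hQ : Q ≠ 0 := right_ne_zero_of_mul h0
  rw [mem_Box, degreeOf_mul_eq hF hQ, degreeOf_mul_eq hF hQ] at h
  rw [mem_Box]
  omega

end Pool.Agent.TKP
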