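import Pool.Agent.TKP.B3

set_option autoImplicit false

namespace Pool.Agent.TKP

open MvPolynomial

/-- The zeros of a nonzero polynomial in which only the variable `i` occurs have only finitely many
`i`-th coordinates. -/
theorem B10_one (i j : Fin 2) (hij : ∀ k : Fin 2, k = i ∨ k = j) (hne : i ≠ j) (R : Pol)
    (hR : R ≠ 0) (h : ∀ s ∈ R.support, s j = 0) :
    {t : ℚ | ∃ p : Fin 2 → ℚ, p i = t ∧ eval p R = 0}.Finite := by
  classical
  set R' : Polynomial ℚ := ∑ s ∈ R.support, Polynomial.monomial (s i) (R.coeff s) with hR'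
  have hne' : R' ≠ 0 := by
    obtain ⟨s, hs⟩ := (MvPolynomial.support_nonempty (p := R)).mpr hR
    intro h0
    have h1 : R'.coeff (s i) = R.coeff s := by
      rw [hR', Polynomial.finsetSum_coeff]
      rw [Finset.sum_eq_single s]
      · simp
      · intro b hb hbs
        rw [Polynomial.coeff_monomial, if_neg]
        intro hbi
        apply hbs
        ext k
        rcases hij k with rfl | rfl
        · exact hbi
        · rw [h b hb, h s hs]
      · intro hs'
        exact absurd hs hs'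
    rw [h0, Polynomial.coeff_zero] at h1
    exact (MvPolynomial.mem_support_iff.mp hs) h1.symm
  refine (Polynomial.finite_setOfPred_isRoot hne').subset ?_
  rintro t ⟨p, rfl, hp⟩
  show Polynomial.IsRoot R' (p i)
  rw [Polynomial.IsRoot, hR', Polynomial.eval_finsetSum]
  rw [MvPolynomial.eval_eq'] at hp
  rw [← hp]
  refine Finset.sum_congr rfl ?_
  intro s hs
  rw [Polynomial.eval_monomial]
  congr 1
  have huniv : (Finset.univ : Finset (Fin 2)) = {i, j} := by
    ext k
    simpa using hij k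
  rw [huniv, Finset.prod_pair hne, h s hs, pow_zero, mul_one]

theorem B10_inter (F G : Pol) (hF : F ≠ 0) (hG : G ≠ 0) (hFG : IsRelPrime F G) (a b : ℕ)
    (hab : F.degreeOf 0 * G.degreeOf 1 + G.degreeOf 0 * F.degreeOf 1 < (a + 1) * (b + 1)) :
    ∃ R : Pol, R ≠ 0 ∧ R ∈ Box a b ∧ ∀ p : Fin 2 → ℚ, eval p F = 0 → eval p G = 0 →
      eval p R = 0 := by
  set m := F.degreeOf 0 + G.degreeOf 0 + a with hm
  set n := F.degreeOf 1 + G.degreeOf 1 + b with hn
  set S : Submodule ℚ Pol := BM m n F ⊔ BM m n G with hS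
  have hdim := bezout_dim F G hF hG hFG m n (by omega) (by omega)
  have hSle : S ≤ Box m n := sup_le inf_le_left inf_le_left
  have hTle : Box a b ≤ Box m n := by
    intro P hP
    rw [mem_Box] at hP ⊢
    omega
  have hle : S ⊔ Box a b ≤ Box m n := sup_le hSle hTle
  have : Module.Finite ℚ (BM m n F) := finite_BI m n _
  have : Module.Finite ℚ (BM m n G) := finite_BI m n _
  have : Module.Finite ℚ S := by
    rw [hS]; infer_instance
  rw [← hS] at hdim
  have h1 := Submodule.finrank_sup_add_finrank_inf_eq S (Box a b)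
  have h2 : Module.finrank ℚ (S ⊔ Box a b : Submodule ℚ Pol) ≤ Module.finrank ℚ (Box m n) :=
    Submodule.finrank_mono hle
  rw [finrank_Box] at h2
  rw [finrank_Box] at h1
  have h3 : 0 < Module.finrank ℚ (S ⊓ Box a b : Submodule ℚ Pol) := by omega
  have h4 : (S ⊓ Box a b : Submodule ℚ Pol) ≠ ⊥ := by
    intro h
    rw [h, finrank_bot] at h3
    exact lt_irrefl _ h3
  obtain ⟨R, hR, hR0⟩ := Submodule.exists_mem_ne_zero_of_ne_bot h4
  refine ⟨R, hR0, hR.2, ?_⟩
  intro p hpF hpG
  obtain ⟨y, hy, z, hz, hyz⟩ := Submodule.mem_sup.mp hR.1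
  rw [mem_BM] at hy hz
  obtain ⟨u, hu⟩ := hy.2
  obtain ⟨v, hv⟩ := hz.2
  rw [← hyz, hu, hv, map_add, map_mul, map_mul, hpF, hpG]
  ring

/-- Let `c = d e' + d' e` (degrees of `F`, `G`). For `m = d + d' + c`, `n = e + e' + c` the space
`S = BM m n F ⊔ BM m n G` has codimension `c` in `Box m n` (`bezout_dim`), and `Box c 0 ≤ Box m n` has
dimension `c + 1`, so there is `R ≠ 0` in `S ⊓ Box c 0`: a nonzero polynomial in `X 0` alone in the
ideal `(F, G)`; so the first coordinates of common zeros are roots of a nonzero univariate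
polynomial: finitely many. Same with `Box 0 c` for the second coordinate; a subset of a product of
two finite sets is finite. -/
theorem finite_common (F G : Pol) (hF : F ≠ 0) (hG : G ≠ 0) (hFG : IsRelPrime F G) :
    {p : Fin 2 → ℚ | eval p F = 0 ∧ eval p G = 0}.Finite := by
  obtain ⟨R, hR0, hRB, hR⟩ := B10_inter F G hF hG hFG
    (F.degreeOf 0 * G.degreeOf 1 + G.degreeOf 0 * F.degreeOf 1) 0 (by omega)
  obtain ⟨R', hR0', hRB', hR'⟩ := B10_inter F G hF hG hFG 0
    (F.degreeOf 0 * G.degreeOf 1 + G.degreeOf 0 * F.degreeOf 1) (by omega)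
  rw [mem_Box] at hRB hRB'
  have hA := B10_one 0 1 (by decide) (by decide) R hR0 (fun s hs =>
    Nat.le_zero.mp (le_trans (MvPolynomial.monomial_le_degreeOf 1 hs) hRB.2))
  have hB := B10_one 1 0 (by decide) (by decide) R' hR0' (fun s hs =>
    Nat.le_zero.mp (le_trans (MvPolynomial.monomial_le_degreeOf 0 hs) hRB'.1))
  refine (Set.Finite.pi' (t := ![{t : ℚ | ∃ p : Fin 2 → ℚ, p 0 = t ∧ eval p R = 0},
    {t : ℚ | ∃ p : Fin 2 → ℚ, p 1 = t ∧ eval p R' = 0}]) ?_).subset ?_
  · intro i
    fin_cases i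
    · exact hA
    · exact hB
  · rintro p ⟨hp, hp'⟩
    intro i
    fin_cases i
    · exact ⟨p, rfl, hR p hp hp'⟩
    · exact ⟨p, rfl, hR' p hp hp'⟩

end Pool.Agent.TKP
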