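import Pool.Agent.TKP.B10

set_option autoImplicit false

namespace Pool.Agent.TKP

open MvPolynomial

theorem exceptional (V : Submodule ℚ Pol) (P0 : Pol) (hP0 : P0 ∈ V) (h0 : P0 ≠ 0) :
    ∃ E : Set (Fin 2 → ℚ), E.Finite ∧ ∀ p : Fin 2 → ℚ, p ∉ E →
      (∀ F : Pol, Irreducible F → eval p F = 0 → ∃ P ∈ V, ¬ F ∣ P) → ∃ P ∈ V, eval p P ≠ 0 := by
  classical
  have key : ∀ F : Pol, ∃ P : Pol, (∃ P' ∈ V, ¬ F ∣ P') → P ∈ V ∧ ¬ F ∣ P := by
    intro F
    by_cases h : ∃ P' ∈ V, ¬ F ∣ P'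
    · obtain ⟨P, hP⟩ := h
      exact ⟨P, fun _ => hP⟩
    · exact ⟨0, fun h' => absurd h' h⟩
  choose G hG using key
  let N := (UniqueFactorizationMonoid.factors P0).toFinset.filter
    (fun F => ∃ P' ∈ V, ¬ F ∣ P')
  refine ⟨⋃ F ∈ N, {p : Fin 2 → ℚ | eval p F = 0 ∧ eval p (G F) = 0}, ?_, ?_⟩
  · apply Set.Finite.biUnion N.finite_toSet
    intro F hF
    have hF' := Finset.mem_filter.1 hF
    have hirr : Irreducible F :=
      UniqueFactorizationMonoid.irreducible_of_factor F (Multiset.mem_toFinset.1 hF'.1)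
    have hnd := (hG F hF'.2).2
    refine finite_common F (G F) hirr.ne_zero ?_ ((hirr.isRelPrime_iff_not_dvd).2 hnd)
    intro h
    rw [h] at hnd
    exact hnd (dvd_zero F)
  · intro p hpE hall
    by_contra hcon
    push Not at hcon
    have h1 := hcon P0 hP0
    obtain ⟨u, hu⟩ := UniqueFactorizationMonoid.factors_prod h0
    have h2 : eval p (UniqueFactorizationMonoid.factors P0).prod = 0 := by
      rw [← hu, map_mul] at h1
      rcases mul_eq_zero.1 h1 with h3 | h3
      · exact h3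
      · exact absurd h3 ((u.isUnit.map (eval p)).ne_zero)
    rw [map_multiset_prod, Multiset.prod_eq_zero_iff, Multiset.mem_map] at h2
    obtain ⟨F, hF, hF0⟩ := h2
    have hirr : Irreducible F := UniqueFactorizationMonoid.irreducible_of_factor F hF
    have hex := hall F hirr hF0
    apply hpE
    simp only [Set.mem_iUnion]
    exact ⟨F, Finset.mem_filter.2 ⟨Multiset.mem_toFinset.2 hF, hex⟩, hF0, hcon _ (hG F hex).1⟩

end Pool.Agent.TKP
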