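import Pool.Agent.TKP.B1

set_option autoImplicit false

namespace Pool.Agent.TKP

open MvPolynomial

/-- If `F.degreeOf 0 ≤ m` and `F.degreeOf 1 ≤ n`, then multiplication by `F` is a linear
isomorphism from `Box (m - F.degreeOf 0) (n - F.degreeOf 1)` onto `BM m n F` (`div_mem_Box`,
`mul_mem_Box`); otherwise `BM m n F = ⊥` by `div_mem_Box` and the right side is `0`. -/
theorem finrank_BM (m n : ℕ) (F : Pol) (hF : F ≠ 0) :
    Module.finrank ℚ (BM m n F) = (m + 1 - F.degreeOf 0) * (n + 1 - F.degreeOf 1) := by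
  by_cases hd : F.degreeOf 0 ≤ m ∧ F.degreeOf 1 ≤ n
  · obtain ⟨h0, h1⟩ := hd
    set φ : Box (m - F.degreeOf 0) (n - F.degreeOf 1) →ₗ[ℚ] Pol :=
      (LinearMap.mulLeft ℚ F).comp (Box (m - F.degreeOf 0) (n - F.degreeOf 1)).subtype with hφ
    have hφa : ∀ Q : Box (m - F.degreeOf 0) (n - F.degreeOf 1), φ Q = F * (Q : Pol) :=
      fun Q => rfl
    have hinj : Function.Injective φ := by
      intro P Q h
      rw [hφa, hφa] at h
      exact Subtype.ext (mul_left_cancel₀ hF h)
    have hran : LinearMap.range φ = BM m n F := by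
      ext P
      rw [LinearMap.mem_range, mem_BM]
      constructor
      · rintro ⟨Q, rfl⟩
        rw [hφa]
        have hF' : F ∈ Box (F.degreeOf 0) (F.degreeOf 1) := (mem_Box _ _ _).2 ⟨le_rfl, le_rfl⟩
        have h2 := mul_mem_Box hF' Q.2
        rw [Nat.add_sub_cancel' h0, Nat.add_sub_cancel' h1] at h2
        exact ⟨h2, Dvd.intro _ rfl⟩
      · rintro ⟨hP, Q, rfl⟩
        by_cases hz : F * Q = 0
        · exact ⟨0, by rw [map_zero, hz]⟩
        · exact ⟨⟨Q, (div_mem_Box hP hz).2.2⟩, rfl⟩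
    rw [← hran, LinearMap.finrank_range_of_inj hinj, finrank_Box]
    have e0 : m - F.degreeOf 0 + 1 = m + 1 - F.degreeOf 0 := by omega
    have e1 : n - F.degreeOf 1 + 1 = n + 1 - F.degreeOf 1 := by omega
    rw [e0, e1]
  · have hbot : BM m n F = ⊥ := by
      rw [eq_bot_iff]
      intro P hP
      rw [mem_BM] at hP
      obtain ⟨hP, Q, rfl⟩ := hP
      rw [Submodule.mem_bot]
      by_contra hz
      obtain ⟨h0, h1, -⟩ := div_mem_Box hP hz
      exact hd ⟨h0, h1⟩
    rw [hbot, finrank_bot]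
    rcases not_and_or.1 hd with h | h
    · rw [show m + 1 - F.degreeOf 0 = 0 by omega, zero_mul]
    · rw [show n + 1 - F.degreeOf 1 = 0 by omega, mul_zero]

end Pool.Agent.TKP
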