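import Pool.Agent.TKP.B2

set_option autoImplicit false

namespace Pool.Agent.TKP

open MvPolynomial

/-- `BM m n F ⊓ BM m n G = BM m n (F * G)` because `F` and `G` are relatively prime
(`IsRelPrime.mul_dvd`, `Pol` is a UFD); then
`Submodule.finrank_sup_add_finrank_inf_eq`, `finrank_BM` three times (with
`(F * G).degreeOf i = F.degreeOf i + G.degreeOf i`), and arithmetic: write
`m = deg0 F + deg0 G + u`, `n = deg1 F + deg1 G + v`. -/
theorem bezout_dim (F G : Pol) (hF : F ≠ 0) (hG : G ≠ 0) (hFG : IsRelPrime F G) (m n : ℕ)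
    (hm : F.degreeOf 0 + G.degreeOf 0 ≤ m) (hn : F.degreeOf 1 + G.degreeOf 1 ≤ n) :
    (m + 1) * (n + 1) = Module.finrank ℚ (BM m n F ⊔ BM m n G : Submodule ℚ Pol) +
      (F.degreeOf 0 * G.degreeOf 1 + G.degreeOf 0 * F.degreeOf 1) := by
  have hinf : BM m n F ⊓ BM m n G = BM m n (F * G) := by
    ext P
    rw [Submodule.mem_inf, mem_BM, mem_BM, mem_BM]
    constructor
    · rintro ⟨⟨h1, h2⟩, -, h3⟩
      exact ⟨h1, hFG.mul_dvd h2 h3⟩
    · rintro ⟨h1, h2⟩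
      exact ⟨⟨h1, (Dvd.intro _ rfl).trans h2⟩, h1, (Dvd.intro_left _ rfl).trans h2⟩
  have hF1 : Module.Finite ℚ (BM m n F) := finite_BI m n _
  have hG1 : Module.Finite ℚ (BM m n G) := finite_BI m n _
  have h := Submodule.finrank_sup_add_finrank_inf_eq (BM m n F) (BM m n G)
  rw [hinf, finrank_BM m n F hF, finrank_BM m n G hG, finrank_BM m n (F * G) (mul_ne_zero hF hG),
    degreeOf_mul_eq hF hG, degreeOf_mul_eq hF hG] at h
  obtain ⟨u, hu⟩ := Nat.exists_eq_add_of_le hm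
  obtain ⟨v, hv⟩ := Nat.exists_eq_add_of_le hn
  obtain ⟨a, ha⟩ : ∃ a, a = F.degreeOf 0 := ⟨_, rfl⟩
  obtain ⟨b, hb⟩ : ∃ b, b = F.degreeOf 1 := ⟨_, rfl⟩
  obtain ⟨c, hc⟩ : ∃ c, c = G.degreeOf 0 := ⟨_, rfl⟩
  obtain ⟨d, hd⟩ : ∃ d, d = G.degreeOf 1 := ⟨_, rfl⟩
  rw [← ha, ← hb, ← hc, ← hd] at h ⊢
  rw [← ha, ← hc] at hu
  rw [← hb, ← hd] at hv
  have e1 : m + 1 - a = c + u + 1 := by omega
  have e2 : n + 1 - b = d + v + 1 := by omega
  have e3 : m + 1 - c = a + u + 1 := by omega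
  have e4 : n + 1 - d = b + v + 1 := by omega
  have e5 : m + 1 - (a + c) = u + 1 := by omega
  have e6 : n + 1 - (b + d) = v + 1 := by omega
  rw [e1, e2, e3, e4, e5, e6] at h
  obtain ⟨r, hr⟩ : ∃ r, r = Module.finrank ℚ (BM m n F ⊔ BM m n G : Submodule ℚ Pol) := ⟨_, rfl⟩
  rw [← hr] at h ⊢
  rw [hu, hv]
  zify at h ⊢
  linear_combination -h

end Pool.Agent.TKP
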