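import Pool.Agent.TKP.B1

set_option autoImplicit false

namespace Pool.Agent.TKP

open MvPolynomial

/-- The map from the box to the quotient. -/
private noncomputable def B4_phi (m n : ℕ) (I : Ideal Pol) : Box m n →ₗ[ℚ] (Pol ⧸ I) :=
  (Ideal.Quotient.mkₐ ℚ I).toLinearMap.comp (Box m n).subtype

private theorem B4_phi_apply (m n : ℕ) (I : Ideal Pol) (x : Box m n) :
    B4_phi m n I x = Ideal.Quotient.mk I (x : Pol) := rfl

private theorem B4_finrank_ker (m n : ℕ) (I : Ideal Pol) :
    Module.finrank ℚ (LinearMap.ker (B4_phi m n I)) = Module.finrank ℚ (BI m n I) := by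
  have e : LinearMap.ker (B4_phi m n I) ≃ₗ[ℚ] BI m n I :=
    { toFun := fun x => ⟨(x : Box m n), by
        rw [mem_BI]
        refine ⟨(x : Box m n).2, ?_⟩
        have h := x.2
        rw [LinearMap.mem_ker, B4_phi_apply, Ideal.Quotient.eq_zero_iff_mem] at h
        exact h⟩
      map_add' := fun x y => rfl
      map_smul' := fun c x => rfl
      invFun := fun y => ⟨⟨(y : Pol), ((mem_BI m n I y).1 y.2).1⟩, by
        rw [LinearMap.mem_ker, B4_phi_apply, Ideal.Quotient.eq_zero_iff_mem]
        exact ((mem_BI m n I y).1 y.2).2⟩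
      left_inv := fun x => rfl
      right_inv := fun y => rfl }
  exact e.finrank_eq

private theorem B4_rank_nullity (m n : ℕ) (I : Ideal Pol) :
    Module.finrank ℚ (LinearMap.range (B4_phi m n I)) + Module.finrank ℚ (BI m n I) =
      (m + 1) * (n + 1) := by
  have := finite_Box m n
  rw [← B4_finrank_ker, ← finrank_Box]
  exact LinearMap.finrank_range_add_finrank_ker (B4_phi m n I)

/-- The kernel of `Box m n → Pol ⧸ I` is `BI m n I`; rank-nullity and `finrank_Box`. -/
theorem codim_BI (m n : ℕ) (I : Ideal Pol) [Module.Finite ℚ (Pol ⧸ I)] :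
    (m + 1) * (n + 1) ≤ Module.finrank ℚ (BI m n I) + cd I := by
  have h := B4_rank_nullity m n I
  have h2 : Module.finrank ℚ (LinearMap.range (B4_phi m n I)) ≤ Module.finrank ℚ (Pol ⧸ I) :=
    Submodule.finrank_le _
  unfold cd
  omega

/-- Every finite dimensional quotient is spanned by the image of a box: lift a finite spanning set
of `Pol ⧸ I` and take `m0`, `n0` at least all its degrees; then `Box m n → Pol ⧸ I` is onto, and
rank-nullity gives equality. -/
theorem big_BI (I : Ideal Pol) [Module.Finite ℚ (Pol ⧸ I)] :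
    ∃ m0 n0 : ℕ, ∀ m n, m0 ≤ m → n0 ≤ n →
      (m + 1) * (n + 1) = Module.finrank ℚ (BI m n I) + cd I := by
  obtain ⟨s, hs⟩ := (Module.Finite.fg_top : (⊤ : Submodule ℚ (Pol ⧸ I)).FG)
  have hsurj := Ideal.Quotient.mk_surjective (I := I)
  let g : (Pol ⧸ I) → Pol := fun x => Classical.choose (hsurj x)
  have hg : ∀ x, Ideal.Quotient.mk I (g x) = x := fun x => Classical.choose_spec (hsurj x)
  refine ⟨s.sup (fun x => (g x).degreeOf 0), s.sup (fun x => (g x).degreeOf 1), ?_⟩
  intro m n hm hn
  have hrange : LinearMap.range (B4_phi m n I) = ⊤ := by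
    rw [eq_top_iff, ← hs, Submodule.span_le]
    intro x hx
    have hx' : x ∈ s := hx
    refine ⟨⟨g x, ?_⟩, ?_⟩
    · rw [mem_Box]
      exact ⟨(Finset.le_sup (f := fun x => (g x).degreeOf 0) hx').trans hm,
        (Finset.le_sup (f := fun x => (g x).degreeOf 1) hx').trans hn⟩
    · rw [B4_phi_apply]
      exact hg x
  have h := B4_rank_nullity m n I
  rw [hrange, finrank_top] at h
  unfold cd
  omega

end Pool.Agent.TKP
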