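import Pool.Agent.TKP.B3
import Pool.Agent.TKP.B4

set_option autoImplicit false

namespace Pool.Agent.TKP

open MvPolynomial

/-- For large `m`, `n` (`big_BI`): `BM m n F ⊔ BM m n G ≤ BI m n I`; compare `bezout_dim` and
`big_BI`. -/
theorem bezout_quot (I : Ideal Pol) [Module.Finite ℚ (Pol ⧸ I)] (F G : Pol) (hF : F ≠ 0)
    (hG : G ≠ 0) (hFG : IsRelPrime F G) (h1 : F ∈ I) (h2 : G ∈ I) :
    cd I ≤ F.degreeOf 0 * G.degreeOf 1 + G.degreeOf 0 * F.degreeOf 1 := by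
  obtain ⟨m0, n0, hbig⟩ := big_BI I
  have h3 := hbig (m0 + (F.degreeOf 0 + G.degreeOf 0)) (n0 + (F.degreeOf 1 + G.degreeOf 1))
    (by omega) (by omega)
  have h4 := bezout_dim F G hF hG hFG (m0 + (F.degreeOf 0 + G.degreeOf 0))
    (n0 + (F.degreeOf 1 + G.degreeOf 1)) (by omega) (by omega)
  set m := m0 + (F.degreeOf 0 + G.degreeOf 0)
  set n := n0 + (F.degreeOf 1 + G.degreeOf 1)
  have hle : (BM m n F ⊔ BM m n G : Submodule ℚ Pol) ≤ BI m n I := by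
    apply sup_le
    · intro P hP
      obtain ⟨h5, h6⟩ := (mem_BM m n F P).1 hP
      exact (mem_BI m n I P).2 ⟨h5, I.mem_of_dvd h6 h1⟩
    · intro P hP
      obtain ⟨h5, h6⟩ := (mem_BM m n G P).1 hP
      exact (mem_BI m n I P).2 ⟨h5, I.mem_of_dvd h6 h2⟩
  have h7 := Submodule.finrank_mono hle
  omega

end Pool.Agent.TKP
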