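import Pool.Agent.TKP.Def

set_option autoImplicit false

namespace Pool.Agent.TKP

open MvPolynomial

/-- The linear map from `Pol ⧸ (I ⊓ J)` to the product. -/
noncomputable def B6_map (I J : Ideal Pol) : (Pol ⧸ (I ⊓ J)) →ₗ[ℚ] (Pol ⧸ I) × (Pol ⧸ J) :=
  (Ideal.Quotient.factorₐ ℚ (inf_le_left : I ⊓ J ≤ I)).toLinearMap.prod
    (Ideal.Quotient.factorₐ ℚ (inf_le_right : I ⊓ J ≤ J)).toLinearMap

theorem B6_map_injective (I J : Ideal Pol) : Function.Injective (B6_map I J) := by
  rw [← LinearMap.ker_eq_bot, LinearMap.ker_eq_bot']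
  intro x hx
  obtain ⟨p, rfl⟩ := Ideal.Quotient.mk_surjective x
  have h1 : (Ideal.Quotient.mk I p : Pol ⧸ I) = 0 := congrArg Prod.fst hx
  have h2 : (Ideal.Quotient.mk J p : Pol ⧸ J) = 0 := congrArg Prod.snd hx
  rw [Ideal.Quotient.eq_zero_iff_mem] at h1 h2 ⊢
  exact ⟨h1, h2⟩

theorem B6_finite (I J : Ideal Pol) (hI : Module.Finite ℚ (Pol ⧸ I))
    (hJ : Module.Finite ℚ (Pol ⧸ J)) : Module.Finite ℚ (Pol ⧸ (I ⊓ J)) :=
  Module.Finite.of_injective (B6_map I J) (B6_map_injective I J)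

theorem B6_cd (I J : Ideal Pol) (hI : Module.Finite ℚ (Pol ⧸ I))
    (hJ : Module.Finite ℚ (Pol ⧸ J)) : cd (I ⊓ J) ≤ cd I + cd J := by
  unfold cd
  rw [← Module.finrank_prod]
  exact LinearMap.finrank_le_finrank_of_injective (B6_map_injective I J)

theorem B6_top : Module.Finite ℚ (Pol ⧸ (⊤ : Ideal Pol)) := by
  have : Subsingleton (Pol ⧸ (⊤ : Ideal Pol)) := Ideal.Quotient.subsingleton_iff.2 rfl
  infer_instance

/-- Induction on `s`; `Pol ⧸ (I ⊓ J)` embeds linearly into `(Pol ⧸ I) × (Pol ⧸ J)`; for the empty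
set `Pol ⧸ ⊤` is trivial. -/
theorem finite_inf (s : Finset (Ideal Pol)) (h : ∀ I ∈ s, Module.Finite ℚ (Pol ⧸ I)) :
    Module.Finite ℚ (Pol ⧸ s.inf id) := by
  classical
  induction s using Finset.induction_on with
  | empty =>
    rw [Finset.inf_empty]
    exact B6_top
  | insert a t ha ih =>
    rw [Finset.inf_insert]
    exact B6_finite a (t.inf id) (h a (Finset.mem_insert_self a t))
      (ih fun I hI => h I (Finset.mem_insert_of_mem hI))

/-- The same induction. -/
theorem cd_inf (s : Finset (Ideal Pol)) (h : ∀ I ∈ s, Module.Finite ℚ (Pol ⧸ I)) :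
    cd (s.inf id) ≤ ∑ I ∈ s, cd I := by
  classical
  induction s using Finset.induction_on with
  | empty =>
    rw [Finset.inf_empty, Finset.sum_empty]
    have hs : Subsingleton (Pol ⧸ (⊤ : Ideal Pol)) := Ideal.Quotient.subsingleton_iff.2 rfl
    unfold cd
    rw [Module.finrank_zero_of_subsingleton]
  | insert a t ha ih =>
    rw [Finset.inf_insert, Finset.sum_insert ha]
    have h1 := B6_cd a (t.inf id) (h a (Finset.mem_insert_self a t))
      (finite_inf t fun I hI => h I (Finset.mem_insert_of_mem hI))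
    exact h1.trans (Nat.add_le_add_left (ih fun I hI => h I (Finset.mem_insert_of_mem hI)) _)

end Pool.Agent.TKP
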