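import Pool.Agent.TKP.Def

set_option autoImplicit false

namespace Pool.Agent.TKP

open MvPolynomial

/-- `F = ∑ monomial`; the image of a monomial with exponent `s` is a constant times
`X 0 ^ (l * s 0) * X 1 ^ (l * s 1)`; `degreeOf_sum_le`, `degreeOf_mul_le`, `degreeOf_pow_le`. -/
theorem degreeOf_psi (ε : ℤ) (l : ℕ) (F : Pol) (i : Fin 2) :
    (psi ε l F).degreeOf i ≤ l * F.degreeOf i := by
  have h0 : psi ε l F = ∑ s ∈ F.support,
      C (F.coeff s) * ∏ j : Fin 2, (C (ε : ℚ) * X j ^ l : Pol) ^ s j := by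
    unfold psi
    rw [aeval_def, eval₂_eq']
    rfl
  rw [h0]
  refine (degreeOf_sum_le _ _ _).trans (Finset.sup_le ?_)
  intro s hs
  have hsi : s i ≤ F.degreeOf i := monomial_le_degreeOf i hs
  have h1 : ∀ j : Fin 2, degreeOf i ((C (ε : ℚ) * X j ^ l : Pol) ^ s j) ≤
      if i = j then l * s j else 0 := by
    intro j
    have h2 : degreeOf i (C (ε : ℚ) * X j ^ l : Pol) ≤ if i = j then l else 0 := by
      refine (degreeOf_C_mul_le _ _ _).trans ?_
      refine (degreeOf_pow_le _ _ _).trans ?_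
      rw [degreeOf_X]
      split_ifs <;> simp
    refine (degreeOf_pow_le _ _ _).trans ?_
    refine (Nat.mul_le_mul_left _ h2).trans ?_
    split_ifs
    · rw [Nat.mul_comm]
    · simp
  calc degreeOf i (C (F.coeff s) * ∏ j : Fin 2, (C (ε : ℚ) * X j ^ l : Pol) ^ s j)
      ≤ degreeOf i (∏ j : Fin 2, (C (ε : ℚ) * X j ^ l : Pol) ^ s j) := degreeOf_C_mul_le _ _ _
    _ ≤ ∑ j : Fin 2, degreeOf i ((C (ε : ℚ) * X j ^ l : Pol) ^ s j) := degreeOf_prod_le _ _ _
    _ ≤ ∑ j : Fin 2, (if i = j then l * s j else 0) := Finset.sum_le_sum fun j _ => h1 j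
    _ = l * s i := by simp
    _ ≤ l * F.degreeOf i := Nat.mul_le_mul_left _ hsi

end Pool.Agent.TKP
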