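import Pool.Agent.TKP.B2
import Pool.Agent.TKP.B4

set_option autoImplicit false

namespace Pool.Agent.TKP

open MvPolynomial

/-- By `codim_BI` and `finrank_BM` the dimension of `BI m n I` is larger than that of `BM m n F`, so
`BI m n I` is not contained in `BM m n F` (`mem_BM`). -/
theorem exists_not_dvd (F : Pol) (hF : Irreducible F) (I : Ideal Pol)
    [Module.Finite ℚ (Pol ⧸ I)] (m n : ℕ)
    (h : cd I + (m + 1 - F.degreeOf 0) * (n + 1 - F.degreeOf 1) < (m + 1) * (n + 1)) :
    ∃ P ∈ BI m n I, ¬ F ∣ P := by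
  by_contra hcon
  push Not at hcon
  have hle : BI m n I ≤ BM m n F := by
    intro P hP
    exact (mem_BM m n F P).2 ⟨((mem_BI m n I P).1 hP).1, hcon P hP⟩
  have h1 := codim_BI m n I
  have h2 := finrank_BM m n F hF.ne_zero
  have hfin : Module.Finite ℚ (BM m n F) := finite_BI m n (Ideal.span {F})
  have h3 : Module.finrank ℚ (BI m n I) ≤ Module.finrank ℚ (BM m n F) :=
    Submodule.finrank_mono hle
  rw [h2] at h3
  have h4 : (m + 1) * (n + 1) ≤
      (m + 1 - F.degreeOf 0) * (n + 1 - F.degreeOf 1) + cd I := h1.trans (Nat.add_le_add_right h3 _)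
  exact absurd h (not_lt.2 (h4.trans (Nat.add_comm _ _).le))

end Pool.Agent.TKP
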