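import Pool.Agent.TKP.B4
import Pool.Agent.TKP.B6

set_option autoImplicit false

namespace Pool.Agent.TKP

open MvPolynomial

/-- An irreducible polynomial is not constant. -/
theorem degree_pos (F : Pol) (hF : Irreducible F) : 0 < F.degreeOf 0 + F.degreeOf 1 := by
  by_contra h
  have h0 : F.degreeOf 0 = 0 := by omega
  have h1 : F.degreeOf 1 = 0 := by omega
  have hC : F = C (F.coeff 0) := by
    ext s
    rw [coeff_C]
    by_cases hs : s ∈ F.support
    · have hs0 : s = 0 := by
        ext i
        have h2 := (degreeOf_le_iff (n := i) (f := F) (d := 0)).1 (by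
          fin_cases i
          · exact h0.le
          · exact h1.le) s hs
        simpa using h2
      subst hs0
      simp
    · have h3 : F.coeff s = 0 := by simpa [mem_support_iff] using hs
      by_cases hs0 : 0 = s
      · subst hs0
        simp [h3]
      · rw [if_neg hs0, h3]
  have hne : F.coeff 0 ≠ 0 := by
    intro h4
    rw [h4, C_0] at hC
    exact hF.ne_zero hC
  apply hF.not_isUnit
  rw [hC]
  exact (isUnit_iff_ne_zero.2 hne).map C

theorem exists_not_dvd' (F : Pol) (hF : Irreducible F) (s : Finset (Ideal Pol))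
    (hs : ∀ I ∈ s, Module.Finite ℚ (Pol ⧸ I)) (hp : ∀ I ∈ s, I.IsPrime) (hn : ∀ I ∈ s, F ∉ I)
    (m n : ℕ) (h : ∑ I ∈ s, cd I < (m + 1) * (n + 1)) :
    ∃ P ∈ BI m n (s.inf id), ¬ F ∣ P := by
  classical
  have := finite_inf s hs
  have h1 := codim_BI m n (s.inf id)
  have h2 := cd_inf s hs
  have hpos : 0 < Module.finrank ℚ (BI m n (s.inf id)) := by omega
  obtain ⟨P0, hP0⟩ := Module.finrank_pos_iff_exists_ne_zero.1 hpos
  have key : ∀ (N : ℕ) (P : Pol), P ≠ 0 → P ∈ BI m n (s.inf id) →
      P.degreeOf 0 + P.degreeOf 1 ≤ N → ∃ P ∈ BI m n (s.inf id), ¬ F ∣ P := by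
    intro N
    induction N with
    | zero =>
      intro P hP hPI hdeg
      refine ⟨P, hPI, ?_⟩
      rintro ⟨Q, rfl⟩
      have hQ : Q ≠ 0 := by
        rintro rfl
        exact hP (mul_zero F)
      have h3 := degree_pos F hF
      rw [degreeOf_mul_eq hF.ne_zero hQ, degreeOf_mul_eq hF.ne_zero hQ] at hdeg
      omega
    | succ N ih =>
      intro P hP hPI hdeg
      by_cases hd : F ∣ P
      · obtain ⟨Q, rfl⟩ := hd
        have hQ : Q ≠ 0 := by
          rintro rfl
          exact hP (mul_zero F)
        have h3 := degree_pos F hF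
        rw [degreeOf_mul_eq hF.ne_zero hQ, degreeOf_mul_eq hF.ne_zero hQ] at hdeg
        apply ih Q hQ
        · rw [mem_BI] at hPI ⊢
          obtain ⟨h4, h5⟩ := hPI
          obtain ⟨h6, h7, h8⟩ := div_mem_Box h4 hP
          constructor
          · rw [mem_Box] at h8 ⊢
            exact ⟨le_trans h8.1 (Nat.sub_le _ _), le_trans h8.2 (Nat.sub_le _ _)⟩
          · simp only [Submodule.mem_finsetInf, id] at h5 ⊢
            intro I hI
            have hprime := hp I hI
            rcases hprime.mem_or_mem (h5 I hI) with h9 | h9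
            · exact absurd h9 (hn I hI)
            · exact h9
        · omega
      · exact ⟨P, hPI, hd⟩
  exact key _ P0 (by simpa using hP0) P0.2 le_rfl

end Pool.Agent.TKP
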