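import Pool.Agent.TKP.Def

set_option autoImplicit false

namespace Pool.Agent.TKP

open MvPolynomial

/-- The powers of a multiplicatively independent point leave every curve.
`eval (fun i => p i ^ L) G = ∑ s ∈ G.support, G.coeff s * z s ^ L` with
`z s = p 0 ^ s 0 * p 1 ^ s 1 > 0`, pairwise different by `hind`. Let `t` be the exponent with the
largest `z t`. Dividing by `z t ^ L` the sum tends to `G.coeff t ≠ 0` (in `ℝ` or `ℚ`:
`tendsto_pow_atTop_nhds_zero_of_lt_one`), so it is nonzero for all large `L`. -/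
theorem dominance (G : Pol) (hG : G ≠ 0) (p : Fin 2 → ℚ) (hp : ∀ i, 0 < p i)
    (hind : ∀ i j i' j' : ℕ, p 0 ^ i * p 1 ^ j = p 0 ^ i' * p 1 ^ j' → i = i' ∧ j = j') :
    ∃ L0 : ℕ, ∀ L ≥ L0, eval (fun i => p i ^ L) G ≠ 0 := by
  classical
  have hz : ∀ s : Fin 2 →₀ ℕ, 0 < p 0 ^ s 0 * p 1 ^ s 1 := fun s =>
    mul_pos (pow_pos (hp 0) _) (pow_pos (hp 1) _)
  have hev : ∀ L : ℕ, eval (fun i => p i ^ L) G =
      ∑ s ∈ G.support, G.coeff s * (p 0 ^ s 0 * p 1 ^ s 1) ^ L := by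
    intro L
    rw [MvPolynomial.eval_eq']
    refine Finset.sum_congr rfl fun s _ => ?_
    rw [Fin.prod_univ_two, ← pow_mul, ← pow_mul, mul_pow, ← pow_mul, ← pow_mul, mul_comm L,
      mul_comm L]
  have hne : G.support.Nonempty := MvPolynomial.support_nonempty.2 hG
  obtain ⟨t, ht, hmax⟩ := G.support.exists_max_image (fun s => p 0 ^ s 0 * p 1 ^ s 1) hne
  have hlt : ∀ s ∈ G.support, s ≠ t → p 0 ^ s 0 * p 1 ^ s 1 < p 0 ^ t 0 * p 1 ^ t 1 := by
    intro s hs hst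
    refine lt_of_le_of_ne (hmax s hs) fun he => hst ?_
    obtain ⟨h1, h2⟩ := hind _ _ _ _ he
    ext i
    fin_cases i
    · exact h1
    · exact h2
  have hlim : Filter.Tendsto (fun L : ℕ => ∑ s ∈ G.support,
      G.coeff s * ((p 0 ^ s 0 * p 1 ^ s 1) / (p 0 ^ t 0 * p 1 ^ t 1)) ^ L) Filter.atTop
      (nhds (∑ s ∈ G.support, if s = t then G.coeff t else 0)) := by
    refine tendsto_finsetSum _ fun s hs => ?_
    by_cases hst : s = t
    · subst hst
      rw [if_pos rfl, div_self (hz s).ne']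
      simp only [one_pow, mul_one]
      exact tendsto_const_nhds
    · rw [if_neg hst]
      have h1 : Filter.Tendsto (fun L : ℕ =>
          ((p 0 ^ s 0 * p 1 ^ s 1) / (p 0 ^ t 0 * p 1 ^ t 1)) ^ L) Filter.atTop (nhds 0) :=
        tendsto_pow_atTop_nhds_zero_of_lt_one (div_pos (hz s) (hz t)).le
          ((div_lt_one (hz t)).2 (hlt s hs hst))
      have h2 := h1.const_mul (G.coeff s)
      rwa [mul_zero] at h2
  rw [Finset.sum_ite_eq' G.support t (fun _ => G.coeff t), if_pos ht] at hlim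
  have hev2 := hlim.eventually_ne (MvPolynomial.mem_support_iff.1 ht)
  rw [Filter.eventually_atTop] at hev2
  obtain ⟨L0, hL0⟩ := hev2
  refine ⟨L0, fun L hL h0 => hL0 L hL ?_⟩
  rw [hev] at h0
  have h3 : (∑ s ∈ G.support,
      G.coeff s * ((p 0 ^ s 0 * p 1 ^ s 1) / (p 0 ^ t 0 * p 1 ^ t 1)) ^ L) *
        (p 0 ^ t 0 * p 1 ^ t 1) ^ L = 0 := by
    rw [Finset.sum_mul, ← h0]
    refine Finset.sum_congr rfl fun s _ => ?_
    rw [mul_assoc, ← mul_pow, div_mul_cancel₀ _ (hz t).ne']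
  exact (mul_eq_zero.1 h3).resolve_right (pow_ne_zero _ (hz t).ne')

end Pool.Agent.TKP
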