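import Pool.Agent.TKP.D1

set_option autoImplicit false

namespace Pool.Agent.TKP

open MvPolynomial

/-- `eval p (psi ε l F) = eval (fun i => ε * p i ^ l) F`. Suppose `F ∣ psi ε l F`; then every zero `q`
of `F` gives the zero `fun i => ε * q i ^ l`. Starting from `p` the iterates are
`fun i => ε * p i ^ (l ^ r)` for `r ≥ 1` in both cases of `Adm` (`ε = 1`, or `ε = -1`, `l = 2`:
`-(-x)^2 = -x^2`). Let `G = aeval (fun i => C ε * X i) F`; `G ≠ 0` because substituting once more gives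
`F` back (`ε ^ 2 = 1`), and `eval (fun i => p i ^ (l ^ r)) G = 0` for all `r ≥ 1`, contradicting
`dominance` (`l ^ r` is unbounded). -/
theorem not_dvd_psi (k : ℕ) (ε : ℤ) (l : ℕ) (h : Adm k ε l) (p : Fin 2 → ℚ) (hp : ∀ i, 0 < p i)
    (hind : ∀ i j i' j' : ℕ, p 0 ^ i * p 1 ^ j = p 0 ^ i' * p 1 ^ j' → i = i' ∧ j = j')
    (F : Pol) (hF : F ≠ 0) (h0 : eval p F = 0) : ¬ F ∣ psi ε l F := by
  have hcomp : ∀ (g : Fin 2 → Pol) (q : Fin 2 → ℚ) (H : Pol),
      eval q (aeval g H) = eval (fun i => eval q (g i)) H := by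
    intro g q H
    have h1 : ∀ (r : Fin 2 → ℚ) (H : Pol), eval r H = aeval r H := fun r H => by
      rw [← MvPolynomial.coe_aeval_eq_eval]
      rfl
    rw [h1, h1, ← AlgHom.comp_apply, comp_aeval]
    rfl
  have hε : (ε : ℚ) ^ 2 = 1 ∧ (ε : ℚ) ^ (l + 1) = ε ∧ 2 ≤ l := by
    rcases h with ⟨h1, h2, _⟩ | ⟨h1, h2, _⟩
    · subst h1; subst h2; norm_num
    · subst h1
      refine ⟨by norm_num, by norm_num, by omega⟩
  obtain ⟨hε2, hεl, hl⟩ := hε
  intro hdvd
  have hstep : ∀ q : Fin 2 → ℚ, eval q F = 0 → eval (fun i => (ε : ℚ) * q i ^ l) F = 0 := by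
    intro q hq
    obtain ⟨H, hH⟩ := hdvd
    have h1 : eval q (psi ε l F) = 0 := by rw [hH, map_mul, hq, zero_mul]
    rw [psi, hcomp] at h1
    rw [← h1]
    congr 2
    funext i
    simp only [map_mul, map_pow, eval_C, eval_X]
  have hiter : ∀ r : ℕ, eval (fun i => (ε : ℚ) * p i ^ (l ^ (r + 1))) F = 0 := by
    intro r
    induction r with
    | zero =>
      rw [zero_add, pow_one]
      exact hstep p h0
    | succ r ih =>
      have h1 := hstep _ ih
      rw [← h1]
      congr 2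
      funext i
      rw [mul_pow, ← mul_assoc, ← pow_succ', hεl, ← pow_mul, ← pow_succ]
  have hG : aeval (fun i => (C (ε : ℚ) * X i : Pol)) F ≠ 0 := by
    intro h1
    apply hF
    have h2 : aeval (fun i => (C (ε : ℚ) * X i : Pol))
        (aeval (fun i => (C (ε : ℚ) * X i : Pol)) F) = F := by
      rw [← AlgHom.comp_apply, comp_aeval]
      have h3 : (fun i => aeval (fun i => (C (ε : ℚ) * X i : Pol)) (C (ε : ℚ) * X i : Pol)) =
          (X : Fin 2 → Pol) := by
        funext i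
        rw [map_mul, aeval_C, aeval_X, MvPolynomial.algebraMap_eq, ← mul_assoc, ← C_mul, ← pow_two,
          hε2, C_1, one_mul]
      rw [h3, aeval_X_left, AlgHom.id_apply]
    rw [← h2, h1, map_zero]
  obtain ⟨L0, hL0⟩ := dominance _ hG p hp hind
  have h4 : L0 ≤ l ^ (L0 + 1) := by
    have h5 : L0 + 1 < l ^ (L0 + 1) := Nat.lt_pow_self (by omega)
    omega
  refine hL0 _ h4 ?_
  rw [hcomp, ← hiter L0]
  congr 2
  funext i
  rw [map_mul, eval_C, eval_X]

end Pool.Agent.TKP
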