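import Pool.Agent.TKP.Def

set_option autoImplicit false

namespace Pool.Agent.TKP

open MvPolynomial

private theorem D3_pow (k a b c d : ℕ) (hk : 0 < k) (h : Two k a b c d) (u v : ℕ) (hu : 0 < u)
    (hv : 0 < v) (he : ((a : ℚ) / b) ^ u = ((c : ℚ) / d) ^ v) : False := by
  have hb : (b : ℚ) ≠ 0 := by
    have := h.b0
    positivity
  have hd : (d : ℚ) ≠ 0 := by
    have := h.d0
    positivity
  have h1 : a ^ u * d ^ v = c ^ v * b ^ u := by
    rw [div_pow, div_pow, div_eq_div_iff (pow_ne_zero _ hb) (pow_ne_zero _ hd)] at he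
    exact_mod_cast he
  have h2 : a ^ u = c ^ v := by
    apply Nat.dvd_antisymm
    · exact (Nat.Coprime.pow u u h.ab).dvd_of_dvd_mul_right (Dvd.intro _ h1)
    · exact (Nat.Coprime.pow v v h.cd).dvd_of_dvd_mul_right (Dvd.intro _ h1.symm)
  have hc0 : 0 < c := lt_of_le_of_lt (Nat.zero_le _) h.dc
  have ha0 : 0 < a := lt_of_le_of_lt (Nat.zero_le _) h.ba
  have h3 : b ^ u = d ^ v := by
    rw [h2] at h1
    exact (Nat.eq_of_mul_eq_mul_left (pow_pos hc0 v) h1).symm
  have ha2 : 2 ≤ a := by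
    have := h.b0
    have := h.ba
    omega
  have hc2 : 2 ≤ c := by
    have := h.d0
    have := h.dc
    omega
  rcases lt_trichotomy u v with huv | huv | huv
  · have hca : c < a := by
      by_contra hcon
      push Not at hcon
      have h4 : a ^ u ≤ c ^ u := Nat.pow_le_pow_left hcon u
      have h5 : c ^ u < c ^ v := Nat.pow_lt_pow_right hc2 huv
      omega
    have hdb : d ≤ b := by
      by_contra hcon
      push Not at hcon
      have h4 : b ^ u < d ^ u := Nat.pow_lt_pow_left hcon hu.ne'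
      have h5 : d ^ u ≤ d ^ v := Nat.pow_le_pow_right h.d0 huv.le
      omega
    have h6 : c ^ k < a ^ k := Nat.pow_lt_pow_left hca hk.ne'
    have h7 : d ^ k ≤ b ^ k := Nat.pow_le_pow_left hdb k
    have := h.eq
    omega
  · subst huv
    exact h.ne (Nat.pow_left_injective hu.ne' h2)
  · have hac : a < c := by
      by_contra hcon
      push Not at hcon
      have h4 : c ^ v ≤ a ^ v := Nat.pow_le_pow_left hcon v
      have h5 : a ^ v < a ^ u := Nat.pow_lt_pow_right ha2 huv
      omega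
    have hbd : b ≤ d := by
      by_contra hcon
      push Not at hcon
      have h4 : d ^ v < b ^ v := Nat.pow_lt_pow_left hcon hv.ne'
      have h5 : b ^ v ≤ b ^ u := Nat.pow_le_pow_right h.b0 huv.le
      omega
    have h6 : a ^ k < c ^ k := Nat.pow_lt_pow_left hac hk.ne'
    have h7 : b ^ k ≤ d ^ k := Nat.pow_le_pow_left hbd k
    have := h.eq
    omega

theorem independent (k a b c d : ℕ) (hk : 0 < k) (h : Two k a b c d) (i j i' j' : ℕ)
    (he : ((a : ℚ) / b) ^ i * ((c : ℚ) / d) ^ j = ((a : ℚ) / b) ^ i' * ((c : ℚ) / d) ^ j') :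
    i = i' ∧ j = j' := by
  have hb : (0 : ℚ) < b := by exact_mod_cast h.b0
  have hd : (0 : ℚ) < d := by exact_mod_cast h.d0
  have hx : (1 : ℚ) < (a : ℚ) / b := by
    rw [one_lt_div hb]
    exact_mod_cast h.ba
  have hy : (1 : ℚ) < (c : ℚ) / d := by
    rw [one_lt_div hd]
    exact_mod_cast h.dc
  have key : ∀ i j i' j' : ℕ, i' < i → ((a : ℚ) / b) ^ i * ((c : ℚ) / d) ^ j =
      ((a : ℚ) / b) ^ i' * ((c : ℚ) / d) ^ j' → False := by
    intro i j i' j' hi he
    obtain ⟨u, rfl⟩ := Nat.exists_eq_add_of_lt hi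
    have hx0 : (0 : ℚ) < ((a : ℚ) / b) ^ i' := pow_pos (by linarith) _
    have h1 : ((a : ℚ) / b) ^ (u + 1) * ((c : ℚ) / d) ^ j = ((c : ℚ) / d) ^ j' := by
      have h2 : ((a : ℚ) / b) ^ i' * (((a : ℚ) / b) ^ (u + 1) * ((c : ℚ) / d) ^ j) =
          ((a : ℚ) / b) ^ i' * ((c : ℚ) / d) ^ j' := by
        rw [← he]
        ring
      exact mul_left_cancel₀ hx0.ne' h2
    have hxu : 1 < ((a : ℚ) / b) ^ (u + 1) := one_lt_pow₀ hx (by omega)
    have hyj : (0 : ℚ) < ((c : ℚ) / d) ^ j := pow_pos (by linarith) _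
    have hjj : j < j' := by
      by_contra hcon
      push Not at hcon
      have h3 : ((c : ℚ) / d) ^ j' ≤ ((c : ℚ) / d) ^ j := pow_le_pow_right₀ hy.le hcon
      nlinarith
    obtain ⟨v, rfl⟩ := Nat.exists_eq_add_of_lt hjj
    have h4 : ((a : ℚ) / b) ^ (u + 1) = ((c : ℚ) / d) ^ (v + 1) := by
      have h5 : ((a : ℚ) / b) ^ (u + 1) * ((c : ℚ) / d) ^ j =
          ((c : ℚ) / d) ^ (v + 1) * ((c : ℚ) / d) ^ j := by
        rw [h1]
        ring
      exact mul_right_cancel₀ hyj.ne' h5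
    exact D3_pow k a b c d hk h (u + 1) (v + 1) (by omega) (by omega) h4
  rcases lt_trichotomy i i' with hi | hi | hi
  · exact (key i' j' i j hi he.symm).elim
  · subst hi
    refine ⟨rfl, ?_⟩
    have hx0 : (0 : ℚ) < ((a : ℚ) / b) ^ i := pow_pos (by linarith) _
    have h1 := mul_left_cancel₀ hx0.ne' he
    exact pow_right_injective₀ (by linarith) hy.ne' h1
  · exact (key i j i' j' hi he).elim

end Pool.Agent.TKP
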