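import Mathlib

set_option autoImplicit false

/-!
Common definitions for MP_f8ddab_nt (project TKP): polynomials in two variables with bounded
bidegree, the power substitution, the ideals of torsion points.
-/

namespace Pool.Agent.TKP

open MvPolynomial

/-- Rational polynomials in two variables. -/
abbrev Pol : Type := MvPolynomial (Fin 2) ℚ

/-- Polynomials of degree at most `m` in the first and at most `n` in the second variable. -/
noncomputable def Box (m n : ℕ) : Submodule ℚ Pol :=
  MvPolynomial.restrictSupport ℚ {s : Fin 2 →₀ ℕ | s 0 ≤ m ∧ s 1 ≤ n}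

/-- The multiples of `F`, as a rational subspace. -/
noncomputable def Mult (F : Pol) : Submodule ℚ Pol := (Ideal.span {F}).restrictScalars ℚ

/-- The members of the box that lie in the ideal `I`. -/
noncomputable def BI (m n : ℕ) (I : Ideal Pol) : Submodule ℚ Pol :=
  Box m n ⊓ I.restrictScalars ℚ

/-- The members of the box that are multiples of `F`. -/
noncomputable def BM (m n : ℕ) (F : Pol) : Submodule ℚ Pol := BI m n (Ideal.span {F})

/-- The substitution `X ↦ ε X ^ l`, `Y ↦ ε Y ^ l`. -/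
noncomputable def psi (ε : ℤ) (l : ℕ) : Pol →ₐ[ℚ] Pol :=
  aeval (fun i => C (ε : ℚ) * X i ^ l)

/-- The standard primitive `n`-th root of unity. -/
noncomputable def zt (n : ℕ) : ℂ := Complex.exp (2 * Real.pi * Complex.I / n)

/-- The prime ideal of the torsion point `(ζ ^ i, ζ ^ j)` with `ζ` a primitive `n`-th root of
unity. -/
noncomputable def tors (n i j : ℕ) : Ideal Pol :=
  RingHom.ker (aeval ![zt n ^ i, zt n ^ j] : Pol →ₐ[ℚ] ℂ)

/-- Dimension of the quotient by an ideal. -/
noncomputable def cd (I : Ideal Pol) : ℕ := Module.finrank ℚ (Pol ⧸ I)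

/-- The pair `(ε, l)` may be used for the exponent `k`. -/
def Adm (k : ℕ) (ε : ℤ) (l : ℕ) : Prop :=
  (ε = -1 ∧ l = 2 ∧ Odd k) ∨ (ε = 1 ∧ 3 ≤ l ∧ Odd l ∧ Nat.Coprime l k)

/-- The triple `(n, i, j)` describes a torsion point both coordinates of which are `k`-th roots of
`-1`. -/
def Good (k n i j : ℕ) : Prop :=
  0 < n ∧ n ∣ 2 * k ∧ i < n ∧ j < n ∧ zt n ^ (i * k) = -1 ∧ zt n ^ (j * k) = -1

/-- The homogeneous form of an integral polynomial of bidegree at most `(D, D)`. -/
noncomputable def hm (P : MvPolynomial (Fin 2) ℤ) (D : ℕ) (a b c d : ℤ) : ℤ :=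
  ∑ s ∈ P.support, P.coeff s * a ^ (s 0) * b ^ (D - s 0) * c ^ (s 1) * d ^ (D - s 1)

/-- The fractions `a / b` and `c / d` modulo `Q` are powers of a root of the `n`-th cyclotomic
polynomial. -/
def Loc (Q n i j : ℕ) (a b c d : ℤ) : Prop :=
  ∃ g : ZMod Q, Polynomial.aeval g (Polynomial.cyclotomic n ℤ) = 0 ∧
    (a : ZMod Q) = g ^ i * b ∧ (c : ZMod Q) = g ^ j * d

/-- Two different primitive representations, in the order `b < a`, `d < c`. -/
structure Two (k a b c d : ℕ) : Prop where
  b0 : 0 < b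
  d0 : 0 < d
  ba : b < a
  dc : d < c
  ab : Nat.Coprime a b
  cd : Nat.Coprime c d
  eq : a ^ k + b ^ k = c ^ k + d ^ k
  ne : a ≠ c

/-- Two multiplicatively independent positive fractions `a / b`, `c / d` in lowest terms. -/
structure Ind (a b c d : ℕ) : Prop where
  a0 : 0 < a
  b0 : 0 < b
  c0 : 0 < c
  d0 : 0 < d
  ab : Nat.Coprime a b
  cd : Nat.Coprime c d
  ind : ∀ i j i' j' : ℕ, ((a : ℚ) / b) ^ i * ((c : ℚ) / d) ^ j =
    ((a : ℚ) / b) ^ i' * ((c : ℚ) / d) ^ j' → i = i' ∧ j = j'

end Pool.Agent.TKP
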