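import Pool.Agent.TKP.B1

set_option autoImplicit false

namespace Pool.Agent.TKP

open MvPolynomial

private theorem H1_supp (P : MvPolynomial (Fin 2) ℤ) (D : ℕ)
    (hP : map (Int.castRingHom ℚ) P ∈ Box D D) (s : Fin 2 →₀ ℕ) (hs : s ∈ P.support) :
    s 0 ≤ D ∧ s 1 ≤ D := by
  rw [mem_Box] at hP
  have hs' : s ∈ (map (Int.castRingHom ℚ) P).support := by
    rw [support_map_of_injective P (RingHom.injective_int (Int.castRingHom ℚ))]
    exact hs
  exact ⟨(monomial_le_degreeOf 0 hs').trans hP.1, (monomial_le_degreeOf 1 hs').trans hP.2⟩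

/-- `MvPolynomial.eval` as a sum over the support; the support of the image is the support
(`Int.cast_injective`); `s 0 ≤ D`, `s 1 ≤ D` on the support. -/
theorem hm_eval (P : MvPolynomial (Fin 2) ℤ) (D : ℕ) (hP : map (Int.castRingHom ℚ) P ∈ Box D D)
    (a b c d : ℤ) (hb : b ≠ 0) (hd : d ≠ 0) :
    (hm P D a b c d : ℚ) =
      b ^ D * d ^ D * eval ![(a : ℚ) / b, (c : ℚ) / d] (map (Int.castRingHom ℚ) P) := by
  have hb' : (b : ℚ) ≠ 0 := by exact_mod_cast hb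
  have hd' : (d : ℚ) ≠ 0 := by exact_mod_cast hd
  rw [eval_eq', support_map_of_injective P (RingHom.injective_int (Int.castRingHom ℚ)),
    Finset.mul_sum]
  unfold hm
  push_cast
  refine Finset.sum_congr rfl fun s hs => ?_
  obtain ⟨h0, h1⟩ := H1_supp P D hP s hs
  rw [coeff_map, Fin.prod_univ_two]
  simp only [Matrix.cons_val_zero, Matrix.cons_val_one, eq_intCast]
  rw [pow_sub₀ _ hb' h0, pow_sub₀ _ hd' h1, div_pow, div_pow]
  field_simp

/-- Each term is at most `|coeff| * M ^ (s 0 + (D - s 0) + s 1 + (D - s 1))`. -/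
theorem hm_bound (P : MvPolynomial (Fin 2) ℤ) (D : ℕ) (hP : map (Int.castRingHom ℚ) P ∈ Box D D)
    (a b c d M : ℕ) (ha : a ≤ M) (hb : b ≤ M) (hc : c ≤ M) (hd : d ≤ M) :
    |hm P D a b c d| ≤ (∑ s ∈ P.support, |P.coeff s|) * (M : ℤ) ^ (2 * D) := by
  unfold hm
  refine (Finset.abs_sum_le_sum_abs _ _).trans ?_
  rw [Finset.sum_mul]
  refine Finset.sum_le_sum fun s hs => ?_
  obtain ⟨h0, h1⟩ := H1_supp P D hP s hs
  have e1 : (P.coeff s * (a : ℤ) ^ (s 0) * (b : ℤ) ^ (D - s 0) * (c : ℤ) ^ (s 1) *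
      (d : ℤ) ^ (D - s 1)) = P.coeff s * ((a : ℤ) ^ (s 0) * (b : ℤ) ^ (D - s 0) *
        (c : ℤ) ^ (s 1) * (d : ℤ) ^ (D - s 1)) := by ring
  rw [e1, abs_mul]
  refine mul_le_mul_of_nonneg_left ?_ (abs_nonneg _)
  rw [abs_of_nonneg (by positivity)]
  have ha' : (a : ℤ) ≤ M := by exact_mod_cast ha
  have hb' : (b : ℤ) ≤ M := by exact_mod_cast hb
  have hc' : (c : ℤ) ≤ M := by exact_mod_cast hc
  have hd' : (d : ℤ) ≤ M := by exact_mod_cast hd
  calc (a : ℤ) ^ (s 0) * (b : ℤ) ^ (D - s 0) * (c : ℤ) ^ (s 1) * (d : ℤ) ^ (D - s 1)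
      ≤ (M : ℤ) ^ (s 0) * (M : ℤ) ^ (D - s 0) * (M : ℤ) ^ (s 1) * (M : ℤ) ^ (D - s 1) := by
        gcongr
    _ = (M : ℤ) ^ (2 * D) := by
        rw [← pow_add, ← pow_add, ← pow_add]
        congr 1
        omega

/-- Clear denominators, e.g. `L = ∏ s ∈ P.support, (P.coeff s).den`. -/
theorem exists_int (P : Pol) : ∃ (L : ℕ) (P' : MvPolynomial (Fin 2) ℤ), 0 < L ∧
    map (Int.castRingHom ℚ) P' = (L : ℚ) • P := by
  induction P using MvPolynomial.induction_on' with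
  | monomial u a =>
    refine ⟨a.den, monomial u a.num, a.den_pos, ?_⟩
    rw [map_monomial, smul_monomial]
    congr 1
    simp only [eq_intCast, smul_eq_mul]
    rw [mul_comm]
    exact (Rat.mul_den_eq_num a).symm
  | add p q hp hq =>
    obtain ⟨L, p', hL, hp'⟩ := hp
    obtain ⟨L', q', hL', hq'⟩ := hq
    refine ⟨L * L', C (L' : ℤ) * p' + C (L : ℤ) * q', Nat.mul_pos hL hL', ?_⟩
    rw [map_add, map_mul, map_mul, hp', hq', map_C, map_C]
    simp only [eq_intCast, Int.cast_natCast, Nat.cast_mul, smul_eq_C_mul, C_mul]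
    ring

end Pool.Agent.TKP
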