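import Pool.Agent.TKP.T1

set_option autoImplicit false

namespace Pool.Agent.TKP

open MvPolynomial

/-- Galois conjugation: let `p = F (T ^ i, T ^ j)` in `ℚ[T]` (`aeval ![T^i, T^j] F`); it vanishes at
`zt n`, so `minpoly ℚ (zt n) = cyclotomic n ℚ` divides it, and it vanishes at `zt n ^ r`, which is
again a primitive `n`-th root of unity. -/
theorem tors_galois (n i j r : ℕ) (hn : 0 < n) (hr : Nat.Coprime r n) (F : Pol)
    (hF : F ∈ tors n i j) : aeval ![(zt n ^ r) ^ i, (zt n ^ r) ^ j] F = 0 := by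
  have key : ∀ z : ℂ, Polynomial.aeval z
      (aeval ![(Polynomial.X : Polynomial ℚ) ^ i, Polynomial.X ^ j] F) =
      aeval ![z ^ i, z ^ j] F := by
    intro z
    have h : (Polynomial.aeval z : Polynomial ℚ →ₐ[ℚ] ℂ).comp
        (aeval ![(Polynomial.X : Polynomial ℚ) ^ i, Polynomial.X ^ j]) =
        (aeval ![z ^ i, z ^ j] : Pol →ₐ[ℚ] ℂ) := by
      apply MvPolynomial.algHom_ext
      intro s
      rw [AlgHom.comp_apply, aeval_X, aeval_X]
      fin_cases s
      · simp
      · simp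
    rw [← h, AlgHom.comp_apply]
  have h1 : Polynomial.aeval (zt n)
      (aeval ![(Polynomial.X : Polynomial ℚ) ^ i, Polynomial.X ^ j] F) = 0 := by
    rw [key]
    unfold tors at hF
    exact (RingHom.mem_ker).1 hF
  have h2 := minpoly.dvd ℚ (zt n) h1
  rw [← Polynomial.cyclotomic_eq_minpoly_rat (zt_prim n hn) hn] at h2
  obtain ⟨q, hq⟩ := h2
  have h3 : IsPrimitiveRoot (zt n ^ r) n := (zt_prim n hn).pow_of_coprime r hr
  have h4 : Polynomial.aeval (zt n ^ r) (Polynomial.cyclotomic n ℚ) = 0 := by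
    rw [Polynomial.cyclotomic_eq_minpoly_rat h3 hn]
    exact minpoly.aeval ℚ _
  rw [← key, hq, map_mul, h4, zero_mul]

/-- `psi ε l F` at `(ζ^i, ζ^j)` is `F (ε ζ^(i l), ε ζ^(j l))`. If `ε = 1`: `l` is odd and coprime to
`k`, so coprime to `n ∣ 2 * k`: `tors_galois` with `r = l`. If `ε = -1`, `l = 2`, `k` odd:
`-ζ^(2 i) = ζ^(i (k + 2))` because `ζ^(i k) = -1` (`Good`), same for `j`; `r = k + 2` is odd and coprime
to `k`, so coprime to `n`. -/
theorem tors_stable (k n i j : ℕ) (ε : ℤ) (l : ℕ) (h : Adm k ε l) (hg : Good k n i j) (F : Pol)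
    (hF : F ∈ tors n i j) : psi ε l F ∈ tors n i j := by
  obtain ⟨hn, hnk, _, _, hi, hj⟩ := hg
  have key : aeval ![zt n ^ i, zt n ^ j] (psi ε l F) =
      aeval ![(ε : ℂ) * (zt n ^ i) ^ l, (ε : ℂ) * (zt n ^ j) ^ l] F := by
    have h : ((aeval ![zt n ^ i, zt n ^ j] : Pol →ₐ[ℚ] ℂ)).comp (psi ε l) =
        (aeval ![(ε : ℂ) * (zt n ^ i) ^ l, (ε : ℂ) * (zt n ^ j) ^ l] : Pol →ₐ[ℚ] ℂ) := by
      apply MvPolynomial.algHom_ext
      intro s
      unfold psi
      rw [AlgHom.comp_apply, aeval_X, aeval_X, map_mul, map_pow, aeval_X, ← algebraMap_eq,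
        AlgHom.commutes]
      fin_cases s
      · simp
      · simp
    rw [← h, AlgHom.comp_apply]
  unfold tors
  rw [RingHom.mem_ker, key]
  have hcop : ∀ r : ℕ, Odd r → Nat.Coprime r k → Nat.Coprime r n := by
    intro r hr hrk
    have h2 : Nat.Coprime r (2 * k) :=
      Nat.Coprime.mul_right (Nat.coprime_two_right.2 hr) hrk
    exact h2.coprime_dvd_right hnk
  rcases h with ⟨rfl, rfl, hk⟩ | ⟨rfl, _, hl, hlk⟩
  · have hr : Nat.Coprime (k + 2) n := by
      apply hcop
      · exact hk.add_even (by decide)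
      · rw [Nat.coprime_self_add_left]
        exact Nat.coprime_two_left.2 hk
    have h := tors_galois n i j (k + 2) hn hr F hF
    have e : ∀ c : ℕ, zt n ^ (c * k) = -1 →
        (zt n ^ (k + 2)) ^ c = (((-1 : ℤ)) : ℂ) * (zt n ^ c) ^ 2 := by
      intro c hc
      rw [← pow_mul, ← pow_mul]
      have : (k + 2) * c = c * k + c * 2 := by ring
      rw [this, pow_add, hc]
      push_cast
      ring
    rw [e i hi, e j hj] at h
    exact h
  · have h := tors_galois n i j l hn (hcop l hl hlk) F hF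
    have e : ∀ c : ℕ, (zt n ^ l) ^ c = (((1 : ℤ)) : ℂ) * (zt n ^ c) ^ l := by
      intro c
      rw [← pow_mul, ← pow_mul, mul_comm l c]
      push_cast
      ring
    rw [e i, e j] at h
    exact h

end Pool.Agent.TKP
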