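import Pool.Agent.TKP.Z1
import Pool.Agent.TKP.B11
import Pool.Agent.TKP.D2
import Pool.Agent.TKP.T2
import Pool.Agent.TKP.H1

set_option autoImplicit false

namespace Pool.Agent.TKP

open MvPolynomial

theorem pair_bound (k K l : ℕ) (ε : ℤ) (hk : 0 < k) (hA : Adm k ε l) (hK4 : 4 ≤ K)
    (hKl : l + 1 ≤ K) (T : Finset (ℕ × ℕ × ℕ)) (hT : ∀ t ∈ T, Good k t.1 t.2.1 t.2.2) (D : ℕ)
    (hD : K * (k * T.card) ≤ (D + 1) ^ 2) :
    ∃ C : ℕ, ∀ a b c d m : ℕ, Ind a b c d → m ∣ a ^ k + b ^ k →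
      (∀ P : MvPolynomial (Fin 2) ℤ, map (Int.castRingHom ℚ) P ∈ Box D D →
        (∀ t ∈ T, map (Int.castRingHom ℚ) P ∈ tors t.1 t.2.1 t.2.2) →
        (m : ℤ) ∣ 2 * k * hm P D a b c d) →
      m ≤ C * (max (max a b) (max c d)) ^ (2 * D) := by
  classical
  have hl : 2 ≤ l := by
    rcases hA with ⟨_, h, _⟩ | ⟨_, h, _⟩ <;> omega
  set s : Finset (Ideal Pol) := T.image (fun t => tors t.1 t.2.1 t.2.2) with hsdef
  have hs : ∀ I ∈ s, Module.Finite ℚ (Pol ⧸ I) := by
    intro I hI
    obtain ⟨t, ht, rfl⟩ := Finset.mem_image.1 hI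
    exact tors_finite _ _ _ (hT t ht).1
  have hp : ∀ I ∈ s, I.IsPrime := by
    intro I hI
    obtain ⟨t, ht, rfl⟩ := Finset.mem_image.1 hI
    exact tors_prime _ _ _
  have hst : ∀ I ∈ s, ∀ F ∈ I, psi ε l F ∈ I := by
    intro I hI F hF
    obtain ⟨t, ht, rfl⟩ := Finset.mem_image.1 hI
    exact tors_stable k _ _ _ ε l hA (hT t ht) F hF
  have hsum : ∑ I ∈ s, cd I ≤ k * T.card := by
    calc ∑ I ∈ s, cd I ≤ ∑ I ∈ s, k := by
          apply Finset.sum_le_sum
          intro I hI
          obtain ⟨t, ht, rfl⟩ := Finset.mem_image.1 hI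
          exact cd_tors k _ _ _ (hT t ht).1 hk (hT t ht).2.1
      _ = s.card * k := by rw [Finset.sum_const, smul_eq_mul]
      _ ≤ T.card * k := Nat.mul_le_mul_right _ Finset.card_image_le
      _ = k * T.card := Nat.mul_comm _ _
  have hDs : K * ∑ I ∈ s, cd I ≤ (D + 1) ^ 2 := le_trans (Nat.mul_le_mul_left _ hsum) hD
  have := finite_inf s hs
  set V := BI D D (s.inf id) with hV
  -- a nonzero element
  have hVpos : 0 < Module.finrank ℚ V := by
    have h1 := codim_BI D D (s.inf id)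
    have h2 := cd_inf s hs
    have h3 : 4 * ∑ I ∈ s, cd I ≤ (D + 1) ^ 2 := le_trans (Nat.mul_le_mul_right _ hK4) hDs
    by_contra h0
    have h0' : Module.finrank ℚ V = 0 := by omega
    rw [← hV, h0'] at h1
    nlinarith [h1, h2, h3]
  obtain ⟨P0, hP0⟩ := Module.finrank_pos_iff_exists_ne_zero.1 hVpos
  obtain ⟨E, hEfin, hE⟩ := exceptional V P0 P0.2 (by simpa using hP0)
  let B := Module.finBasis ℚ V
  choose L P' hL hP' using fun i => exists_int ((B i : V) : Pol)
  let S : Fin (Module.finrank ℚ V) → ℕ := fun i => ∑ t ∈ (P' i).support, ((P' i).coeff t).natAbs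
  refine ⟨(∑ i, 2 * k * S i) + ∑ p ∈ hEfin.toFinset, ((p 0).num.natAbs ^ k + (p 0).den ^ k), ?_⟩
  intro a b c d m hI hm1 hm2
  have ha := hI.a0
  have hM : 0 < max (max a b) (max c d) := by omega
  have hN0 : 0 < a ^ k + b ^ k := by
    have : 0 < b ^ k := pow_pos hI.b0 k
    omega
  have hb0 : (b : ℚ) ≠ 0 := by
    have := hI.b0
    positivity
  have hd0 : (d : ℚ) ≠ 0 := by
    have := hI.d0
    positivity
  set p : Fin 2 → ℚ := ![(a : ℚ) / b, (c : ℚ) / d] with hpdef
  by_cases hpE : p ∈ E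
  · -- exceptional point
    have h1 : m ≤ a ^ k + b ^ k := Nat.le_of_dvd hN0 hm1
    have h2 : (p 0).num.natAbs = a := by
      have : p 0 = (a : ℤ) / (b : ℤ) := by simp [hpdef]
      rw [this, Rat.num_div_eq_of_coprime (by exact_mod_cast hI.b0)
        (by simpa using hI.ab)]
      simp
    have h3 : (p 0).den = b := by
      have : p 0 = (a : ℤ) / (b : ℤ) := by simp [hpdef]
      have h4 := Rat.den_div_eq_of_coprime (a := (a : ℤ)) (b := (b : ℤ))
        (by exact_mod_cast hI.b0) (by simpa using hI.ab)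
      rw [this]
      exact_mod_cast h4
    have h5 : a ^ k + b ^ k ≤ ∑ p ∈ hEfin.toFinset, ((p 0).num.natAbs ^ k + (p 0).den ^ k) := by
      have := Finset.single_le_sum
        (f := fun p : Fin 2 → ℚ => (p 0).num.natAbs ^ k + (p 0).den ^ k)
        (fun _ _ => Nat.zero_le _) (hEfin.mem_toFinset.2 hpE)
      simpa only [h2, h3] using this
    calc m ≤ (∑ p ∈ hEfin.toFinset, ((p 0).num.natAbs ^ k + (p 0).den ^ k)) * 1 := by omega
      _ ≤ _ := by
        apply Nat.mul_le_mul
        · omega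
        · exact Nat.one_le_pow _ _ hM
  · -- main case
    have hppos : ∀ i, 0 < p i := by
      intro i
      have hc := hI.c0
      have hb := hI.b0
      have hd := hI.d0
      fin_cases i
      · simp only [hpdef, Fin.zero_eta, Fin.isValue, Matrix.cons_val_zero]
        positivity
      · simp only [hpdef, Fin.mk_one, Fin.isValue, Matrix.cons_val_one, Matrix.cons_val_fin_one]
        positivity
    have hind : ∀ i j i' j' : ℕ, p 0 ^ i * p 1 ^ j = p 0 ^ i' * p 1 ^ j' → i = i' ∧ j = j' := by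
      intro i j i' j' h
      exact hI.ind i j i' j' (by simpa [hpdef] using h)
    obtain ⟨P, hP, hPp⟩ := hE p hpE (fun F hF hF0 =>
      zero_lemma ε l K hl hK4 hKl s hs hp hst D hDs F hF
        (not_dvd_psi k ε l hA p hppos hind F hF.ne_zero hF0))
    obtain ⟨i, hi⟩ : ∃ i, eval p ((B i : V) : Pol) ≠ 0 := by
      by_contra hall
      push Not at hall
      apply hPp
      have hrep := B.sum_repr ⟨P, hP⟩
      have h6 : P = ∑ i, B.repr ⟨P, hP⟩ i • ((B i : V) : Pol) := by
        calc P = ((⟨P, hP⟩ : V) : Pol) := rfl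
          _ = ((∑ i, B.repr ⟨P, hP⟩ i • B i : V) : Pol) := by rw [hrep]
          _ = _ := by
            rw [Submodule.coe_sum]
            rfl
      rw [h6, map_sum]
      apply Finset.sum_eq_zero
      intro i _
      rw [smul_eval, hall i, mul_zero]
    have hmem : map (Int.castRingHom ℚ) (P' i) ∈ V := by
      rw [hP' i]
      exact V.smul_mem _ (B i).2
    have hbox := ((mem_BI _ _ _ _).1 hmem).1
    have hne : hm (P' i) D a b c d ≠ 0 := by
      intro h0
      have h7 := hm_eval (P' i) D hbox a b c d (by exact_mod_cast hI.b0.ne')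
        (by exact_mod_cast hI.d0.ne')
      rw [h0, hP' i] at h7
      have h8 : ![((a : ℤ) : ℚ) / ((b : ℤ) : ℚ), ((c : ℤ) : ℚ) / ((d : ℤ) : ℚ)] = p := by
        simp [hpdef]
      rw [h8, smul_eval] at h7
      have h9 : (L i : ℚ) ≠ 0 := by
        have := hL i
        positivity
      have h10 : ((b : ℤ) : ℚ) ^ D * ((d : ℤ) : ℚ) ^ D * ((L i : ℚ) * eval p ((B i : V) : Pol)) ≠ 0 := by
        refine mul_ne_zero (mul_ne_zero (pow_ne_zero _ ?_) (pow_ne_zero _ ?_)) (mul_ne_zero h9 hi)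
        · exact_mod_cast hI.b0.ne'
        · exact_mod_cast hI.d0.ne'
      apply h10
      rw [← h7]
      simp
    have hdiv := hm2 (P' i) hbox (fun t ht => by
      have := ((mem_BI _ _ _ _).1 hmem).2
      rw [Z1_mem_inf] at this
      exact this _ (Finset.mem_image.2 ⟨t, ht, rfl⟩))
    have hle : (m : ℤ) ≤ |2 * k * hm (P' i) D a b c d| := by
      refine Int.le_of_dvd ?_ ((dvd_abs _ _).2 hdiv)
      rw [abs_pos]
      refine mul_ne_zero (mul_ne_zero two_ne_zero ?_) hne
      exact_mod_cast hk.ne'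
    have hbd := hm_bound (P' i) D hbox a b c d (max (max a b) (max c d)) (by omega) (by omega)
      (by omega) (by omega)
    have hSi : (∑ t ∈ (P' i).support, |(P' i).coeff t|) = (S i : ℤ) := by
      simp only [S]
      push_cast
      rfl
    rw [hSi] at hbd
    have h11 : (m : ℤ) ≤ 2 * k * (S i * (max (max a b) (max c d) : ℕ) ^ (2 * D)) := by
      rw [abs_mul] at hle
      have h12 : |(2 * k : ℤ)| = 2 * k := abs_of_nonneg (by positivity)
      rw [h12] at hle
      exact le_trans hle (mul_le_mul_of_nonneg_left hbd (by positivity))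
    have h13 : m ≤ 2 * k * (S i * (max (max a b) (max c d)) ^ (2 * D)) := by exact_mod_cast h11
    have h14 : 2 * k * S i ≤ ∑ i, 2 * k * S i :=
      Finset.single_le_sum (f := fun i => 2 * k * S i) (fun _ _ => Nat.zero_le _)
        (Finset.mem_univ i)
    calc m ≤ (2 * k * S i) * (max (max a b) (max c d)) ^ (2 * D) := by rw [mul_assoc (2 * k)]; exact h13
      _ ≤ _ := Nat.mul_le_mul_right _ (by omega)

end Pool.Agent.TKP
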