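import Pool.Agent.TKP.Def

set_option autoImplicit false

namespace Pool.Agent.TKP

open MvPolynomial

/-- `zt n` is a primitive root: `Complex.isPrimitiveRoot_exp`. -/
theorem zt_prim (n : ℕ) (hn : 0 < n) : IsPrimitiveRoot (zt n) n := by
  unfold zt
  exact Complex.isPrimitiveRoot_exp n hn.ne'

/-- Kernel of a homomorphism into a domain. -/
instance tors_prime (n i j : ℕ) : (tors n i j).IsPrime := by
  unfold tors
  exact RingHom.ker_isPrime _

private noncomputable def T1_f (n i j : ℕ) : Pol →ₐ[ℚ] ℂ := aeval ![zt n ^ i, zt n ^ j]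

private noncomputable def T1_N (n : ℕ) : Submodule ℚ ℂ :=
  Subalgebra.toSubmodule (Algebra.adjoin ℚ {zt n})

private theorem T1_range (n i j : ℕ) :
    LinearMap.range (T1_f n i j).toLinearMap ≤ T1_N n := by
  rintro _ ⟨F, rfl⟩
  have hz : zt n ∈ Algebra.adjoin ℚ {zt n} := Algebra.self_mem_adjoin_singleton ℚ (zt n)
  have h : (T1_f n i j).range ≤ Algebra.adjoin ℚ {zt n} := by
    unfold T1_f
    rw [← Algebra.adjoin_range_eq_range_aeval, Algebra.adjoin_le_iff]
    rintro _ ⟨s, rfl⟩
    fin_cases s
    · exact Subalgebra.pow_mem _ hz _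
    · exact Subalgebra.pow_mem _ hz _
  exact h ⟨F, rfl⟩

private theorem T1_int (n : ℕ) (hn : 0 < n) : IsIntegral ℚ (zt n) :=
  ((zt_prim n hn).isIntegral hn).tower_top

private theorem T1_finN (n : ℕ) (hn : 0 < n) : Module.Finite ℚ (T1_N n) :=
  (Algebra.adjoin.powerBasis (T1_int n hn)).finite

private theorem T1_rankN (n : ℕ) (hn : 0 < n) : Module.finrank ℚ (T1_N n) = Nat.totient n := by
  have h := (Algebra.adjoin.powerBasis (T1_int n hn)).finrank
  rw [Algebra.adjoin.powerBasis_dim, ← Polynomial.cyclotomic_eq_minpoly_rat (zt_prim n hn) hn,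
    Polynomial.natDegree_cyclotomic] at h
  exact h

private noncomputable def T1_e (n i j : ℕ) : (Pol ⧸ tors n i j) →ₗ[ℚ] T1_N n :=
  (Submodule.inclusion (T1_range n i j)).comp
    ((T1_f n i j).toLinearMap.quotKerEquivRange.toLinearMap.comp
      (Submodule.mapQ ((tors n i j).restrictScalars ℚ) (LinearMap.ker (T1_f n i j).toLinearMap)
        LinearMap.id (fun _ hx => hx)))

private theorem T1_inj (n i j : ℕ) : Function.Injective (T1_e n i j) := by
  unfold T1_e
  intro x y hxy
  have h1 := Submodule.inclusion_injective (T1_range n i j) hxy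
  have h2 := (T1_f n i j).toLinearMap.quotKerEquivRange.injective h1
  induction x using Submodule.Quotient.induction_on with
  | H x =>
    induction y using Submodule.Quotient.induction_on with
    | H y =>
      have h3 : (Submodule.Quotient.mk x : Pol ⧸ LinearMap.ker (T1_f n i j).toLinearMap) =
          Submodule.Quotient.mk y := h2
      rw [Submodule.Quotient.eq] at h3
      have h4 : x - y ∈ tors n i j := h3
      exact (Submodule.Quotient.eq _).2 h4

private theorem T1_two (m : ℕ) : Nat.totient (2 * m) ≤ m := by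
  induction m using Nat.strong_induction_on with
  | _ m ih =>
    rcases Nat.even_or_odd m with he | ho
    · rw [Nat.totient_two_mul_of_even he]
      obtain ⟨c, hc⟩ := he
      rcases Nat.eq_zero_or_pos c with h0 | h0
      · subst h0; simp at hc; subst hc; simp
      · have h1 := ih c (by omega)
        have h2 : m = 2 * c := by omega
        rw [h2]
        omega
    · rw [Nat.totient_two_mul_of_odd ho]
      exact Nat.totient_le m

/-- The image of `Pol` lies in `Algebra.adjoin ℚ {zt n}` (or `ℚ⟮zt n⟯`), which has dimension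
`(minpoly ℚ (zt n)).natDegree = φ n` (`Polynomial.cyclotomic_eq_minpoly_rat`,
`Polynomial.natDegree_cyclotomic`); `Pol ⧸ ker` is isomorphic to the image. -/
theorem tors_finite (n i j : ℕ) (hn : 0 < n) : Module.Finite ℚ (Pol ⧸ tors n i j) := by
  have h1 := T1_finN n hn
  exact Module.Finite.of_injective _ (T1_inj n i j)

theorem cd_tors_le (n i j : ℕ) (hn : 0 < n) : cd (tors n i j) ≤ Nat.totient n := by
  have h1 := T1_finN n hn
  have h2 := LinearMap.finrank_le_finrank_of_injective (T1_inj n i j)
  rw [T1_rankN n hn] at h2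
  exact h2

/-- `φ n ≤ k` for `n ∣ 2 * k`: if `n ≤ k` by `Nat.totient_le`; otherwise `n = 2 * k` and
`φ (2 k) ≤ k` (only odd numbers are counted; or `Nat.totient_two_mul_of_even/odd`). -/
theorem cd_tors (k n i j : ℕ) (hn : 0 < n) (hk : 0 < k) (h : n ∣ 2 * k) : cd (tors n i j) ≤ k := by
  refine (cd_tors_le n i j hn).trans ?_
  by_cases hnk : n ≤ k
  · exact (Nat.totient_le n).trans hnk
  · obtain ⟨c, hc⟩ := h
    have hc1 : c = 1 := by
      have h0 : c ≠ 0 := by rintro rfl; omega
      have h2 : c < 2 := by
        by_contra h3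
        have h4 : 2 ≤ c := not_lt.1 h3
        have h5 : n * 2 ≤ n * c := Nat.mul_le_mul_left n h4
        omega
      omega
    have hn2 : n = 2 * k := by rw [hc, hc1, mul_one]
    rw [hn2]
    exact T1_two k

end Pool.Agent.TKP
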