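import Pool.Agent.TKP.B1
import Pool.Agent.TKP.T1

set_option autoImplicit false

namespace Pool.Agent.TKP

open MvPolynomial

theorem hm_zero (P : MvPolynomial (Fin 2) ℤ) (D : ℕ) (hP : map (Int.castRingHom ℚ) P ∈ Box D D)
    (n i j Q : ℕ) (hn : 0 < n) (hT : map (Int.castRingHom ℚ) P ∈ tors n i j) (a b c d : ℤ)
    (hL : Loc Q n i j a b c d) : (Q : ℤ) ∣ hm P D a b c d := by
  obtain ⟨g, hg, ha, hc⟩ := hL
  -- the univariate polynomial
  let p : Polynomial ℤ := aeval ![Polynomial.X ^ i, Polynomial.X ^ j] P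
  have hp : Polynomial.aeval (zt n) p = 0 := by
    have h1 : aeval ![zt n ^ i, zt n ^ j] (map (Int.castRingHom ℚ) P) = (0 : ℂ) :=
      RingHom.mem_ker.1 hT
    have h2 : Polynomial.aeval (zt n) p = aeval ![zt n ^ i, zt n ^ j] P := by
      have h3 : (Polynomial.aeval (zt n) : Polynomial ℤ →ₐ[ℤ] ℂ).comp
          (aeval ![(Polynomial.X : Polynomial ℤ) ^ i, Polynomial.X ^ j]) =
          (aeval ![zt n ^ i, zt n ^ j] : MvPolynomial (Fin 2) ℤ →ₐ[ℤ] ℂ) := by
        ext x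
        fin_cases x <;> simp
      exact DFunLike.congr_fun h3 P
    rw [h2]
    rw [← h1, aeval_def, aeval_def, eval₂_map]
    congr 1
  have hdvd : Polynomial.cyclotomic n ℤ ∣ p := by
    rw [Polynomial.cyclotomic_eq_minpoly (zt_prim n hn) hn]
    exact minpoly.isIntegrallyClosed_dvd ((zt_prim n hn).isIntegral hn) hp
  have hpg : Polynomial.aeval g p = 0 := by
    obtain ⟨r, hr⟩ := hdvd
    rw [hr, map_mul, hg, zero_mul]
  have hpg' : aeval ![g ^ i, g ^ j] P = (0 : ZMod Q) := by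
    rw [← hpg]
    have h3 : (Polynomial.aeval g : Polynomial ℤ →ₐ[ℤ] ZMod Q).comp
        (aeval ![(Polynomial.X : Polynomial ℤ) ^ i, Polynomial.X ^ j]) =
        (aeval ![g ^ i, g ^ j] : MvPolynomial (Fin 2) ℤ →ₐ[ℤ] ZMod Q) := by
      ext x
      fin_cases x <;> simp
    exact (DFunLike.congr_fun h3 P).symm
  have hdeg : ∀ s ∈ P.support, s 0 ≤ D ∧ s 1 ≤ D := by
    intro s hs
    have h4 := (mem_Box D D _).1 hP
    have h5 : s ∈ (map (Int.castRingHom ℚ) P).support := by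
      rw [support_map_of_injective _ (RingHom.injective_int _)]
      exact hs
    exact ⟨(degreeOf_le_iff.1 h4.1) s h5, (degreeOf_le_iff.1 h4.2) s h5⟩
  rw [← ZMod.intCast_zmod_eq_zero_iff_dvd, hm]
  push_cast
  rw [ha, hc]
  have h6 : (∑ s ∈ P.support, ((P.coeff s : ℤ) : ZMod Q) * (g ^ i * b) ^ (s 0) * (b : ZMod Q) ^ (D - s 0) *
      (g ^ j * d) ^ (s 1) * (d : ZMod Q) ^ (D - s 1)) =
      (b : ZMod Q) ^ D * (d : ZMod Q) ^ D * aeval ![g ^ i, g ^ j] P := by
    rw [aeval_def, eval₂_eq', Finset.mul_sum]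
    apply Finset.sum_congr rfl
    intro s hs
    obtain ⟨h7, h8⟩ := hdeg s hs
    rw [Fin.prod_univ_two]
    simp only [Matrix.cons_val_zero, Matrix.cons_val_one, Matrix.cons_val_fin_one,
      algebraMap_int_eq, eq_intCast, mul_pow]
    have hb : (b : ZMod Q) ^ D = b ^ (s 0) * b ^ (D - s 0) := by
      rw [← pow_add]
      congr 1
      omega
    have hd : (d : ZMod Q) ^ D = d ^ (s 1) * d ^ (D - s 1) := by
      rw [← pow_add]
      congr 1
      omega
    rw [hb, hd]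
    ring
  rw [h6, hpg', mul_zero]

end Pool.Agent.TKP
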