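import Pool.Agent.TKP.Def

set_option autoImplicit false

namespace Pool.Agent.TKP

open MvPolynomial

/-- In a finite cyclic commutative group two elements are powers of one element whose order divides
`N` as soon as both have `N`-th power one: the subgroup of elements with `x ^ N = 1` is cyclic. Here
the group is `(ZMod (q ^ f))ˣ` (`ZMod.isCyclic_units_of_prime_pow`). -/
theorem common_root (q f N : ℕ) (hq : q.Prime) (hq2 : q ≠ 2) (hN : 0 < N)
    (x y : (ZMod (q ^ f))ˣ) (hx : x ^ N = 1) (hy : y ^ N = 1) :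
    ∃ (g : (ZMod (q ^ f))ˣ) (i j : ℕ), orderOf g ∣ N ∧ i < orderOf g ∧ j < orderOf g ∧
      x = g ^ i ∧ y = g ^ j := by
  have hne : NeZero (q ^ f) := ⟨pow_ne_zero _ hq.ne_zero⟩
  have hcyc : IsCyclic (ZMod (q ^ f))ˣ := ZMod.isCyclic_units_of_prime_pow q hq hq2 f
  let H : Subgroup (ZMod (q ^ f))ˣ := (powMonoidHom N : (ZMod (q ^ f))ˣ →* (ZMod (q ^ f))ˣ).ker
  have hH : ∀ z, z ∈ H ↔ z ^ N = 1 := fun z => MonoidHom.mem_ker
  obtain ⟨g, hg⟩ := IsCyclic.exists_generator (α := H)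
  have hpow : ∀ z : (ZMod (q ^ f))ˣ, z ^ N = 1 →
      ∃ i, i < orderOf (g : (ZMod (q ^ f))ˣ) ∧ z = (g : (ZMod (q ^ f))ˣ) ^ i := by
    intro z hz
    obtain ⟨n, hn⟩ := hg ⟨z, (hH z).2 hz⟩
    have h1 : (g : (ZMod (q ^ f))ˣ) ^ n = z := by
      have := congrArg Subtype.val hn
      simpa using this
    have h2 : z ∈ Subgroup.zpowers (g : (ZMod (q ^ f))ˣ) := ⟨n, h1⟩
    rw [← mem_powers_iff_mem_zpowers, mem_powers_iff_mem_range_orderOf] at h2
    obtain ⟨i, hi, hi2⟩ := Finset.mem_image.1 h2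
    exact ⟨i, Finset.mem_range.1 hi, hi2.symm⟩
  obtain ⟨i, hi, hxi⟩ := hpow x hx
  obtain ⟨j, hj, hyj⟩ := hpow y hy
  exact ⟨g, i, j, orderOf_dvd_of_pow_eq_one ((hH _).1 g.2), hi, hj, hxi, hyj⟩

end Pool.Agent.TKP
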