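import Pool.Agent.TKP.T1

set_option autoImplicit false

namespace Pool.Agent.TKP

open MvPolynomial

private theorem L3_unit (q f n : ℕ) (hq : q.Prime) (hf : 0 < f) (hn : 0 < n) (hqn : ¬ q ∣ n)
    (g : (ZMod (q ^ f))ˣ) (hg : orderOf g = n) (d : ℕ) (hd : d ∣ n) (hdn : d < n) (hd0 : 0 < d) :
    IsUnit ((g : ZMod (q ^ f)) ^ d - 1) := by
  have hpos : 0 < q ^ f := pow_pos hq.pos f
  have : NeZero (q ^ f) := ⟨hpos.ne'⟩
  by_contra hun
  set y : ZMod (q ^ f) := (g : ZMod (q ^ f)) ^ d - 1 with hy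
  have hval : ((y.val : ℕ) : ZMod (q ^ f)) = y := ZMod.natCast_zmod_val y
  have h1 : ¬ Nat.Coprime y.val (q ^ f) := by
    intro hc
    apply hun
    rw [← hval]
    exact (ZMod.isUnit_iff_coprime _ _).2 hc
  have h2 : q ∣ y.val := by
    by_contra h
    exact h1 (Nat.Coprime.pow_right f ((Nat.Prime.coprime_iff_not_dvd hq).2 h).symm)
  have h3 : (q : ZMod (q ^ f)) ∣ (g : ZMod (q ^ f)) ^ d - 1 := by
    obtain ⟨z, hz⟩ := h2
    refine ⟨(z : ZMod (q ^ f)), ?_⟩
    rw [← hy, ← hval, hz]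
    push_cast
    ring
  have h4 := dvd_sub_pow_of_dvd_sub h3 (f - 1)
  have h5 : ((q : ZMod (q ^ f)) ^ (f - 1 + 1)) = 0 := by
    rw [Nat.sub_add_cancel hf]
    have := ZMod.natCast_self (q ^ f)
    push_cast at this
    exact this
  rw [h5, zero_dvd_iff, one_pow, sub_eq_zero, ← pow_mul] at h4
  have h6 : g ^ (d * q ^ (f - 1)) = 1 := by
    ext
    push_cast
    exact h4
  have h7 : n ∣ d * q ^ (f - 1) := by
    rw [← hg]
    exact orderOf_dvd_of_pow_eq_one h6
  have h8 : Nat.Coprime n (q ^ (f - 1)) :=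
    Nat.Coprime.pow_right _ ((Nat.Prime.coprime_iff_not_dvd hq).2 hqn).symm
  have h9 : n ∣ d := h8.dvd_of_dvd_mul_right h7
  exact absurd (Nat.le_of_dvd hd0 h9) (not_le.2 hdn)

/-- A unit `g` of order `n` modulo `q ^ f` with `q ∤ n`, `f ≥ 1`, is a root of the `n`-th cyclotomic
polynomial: `∏ d ∣ n, cyclotomic d` evaluated at `g` is `g ^ n - 1 = 0`; for a proper divisor `d` of
`n`, `cyclotomic d` at `g` divides `g ^ d - 1`, which is a unit modulo `q ^ f`, because otherwise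
`g ^ d ≡ 1` modulo `q`, so `(g ^ d) ^ (q ^ (f - 1)) = 1` in `ZMod (q ^ f)` and
`n ∣ d * q ^ (f - 1)`, `n ∣ d`, a contradiction. -/
theorem cyclotomic_zero (q f n : ℕ) (hq : q.Prime) (hf : 0 < f) (hn : 0 < n) (hqn : ¬ q ∣ n)
    (g : (ZMod (q ^ f))ˣ) (hg : orderOf g = n) :
    Polynomial.aeval (g : ZMod (q ^ f)) (Polynomial.cyclotomic n ℤ) = 0 := by
  have e : Polynomial.aeval (g : ZMod (q ^ f)) (Polynomial.cyclotomic n ℤ) =
      Polynomial.eval (g : ZMod (q ^ f)) (Polynomial.cyclotomic n (ZMod (q ^ f))) := by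
    rw [Polynomial.aeval_def, Polynomial.eval₂_eq_eval_map, Polynomial.map_cyclotomic]
  rw [e]
  have hprod := Polynomial.prod_cyclotomic_eq_X_pow_sub_one hn (ZMod (q ^ f))
  rw [← Nat.cons_self_properDivisors hn.ne', Finset.prod_cons] at hprod
  have hev := congrArg (Polynomial.eval (g : ZMod (q ^ f))) hprod
  rw [Polynomial.eval_mul, Polynomial.eval_prod] at hev
  simp only [Polynomial.eval_sub, Polynomial.eval_pow, Polynomial.eval_X,
    Polynomial.eval_one] at hev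
  have hgn : (g : ZMod (q ^ f)) ^ n = 1 := by
    have := pow_orderOf_eq_one g
    rw [hg] at this
    rw [← Units.val_pow_eq_pow_val, this, Units.val_one]
  rw [hgn, sub_self] at hev
  have hunit : IsUnit (∏ d ∈ n.properDivisors,
      Polynomial.eval (g : ZMod (q ^ f)) (Polynomial.cyclotomic d (ZMod (q ^ f)))) := by
    refine Finset.prod_induction _ IsUnit (fun _ _ => IsUnit.mul) isUnit_one fun d hd => ?_
    rw [Nat.mem_properDivisors] at hd
    have hu := L3_unit q f n hq hf hn hqn g hg d hd.1 hd.2 (Nat.pos_of_dvd_of_pos hd.1 hn)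
    have hdv : Polynomial.eval (g : ZMod (q ^ f)) (Polynomial.cyclotomic d (ZMod (q ^ f))) ∣
        (g : ZMod (q ^ f)) ^ d - 1 := by
      have := Polynomial.eval_dvd (x := (g : ZMod (q ^ f)))
        (Polynomial.cyclotomic.dvd_X_pow_sub_one d (ZMod (q ^ f)))
      simpa using this
    exact isUnit_of_dvd_unit hdv hu
  exact (hunit.mul_left_eq_zero).1 hev

/-- If `g` has order `n` in `(ZMod Q)ˣ`, `Q > 2`, and `g ^ m = -1`, then `zt n ^ m = -1`:
`g ^ (2 m) = 1`, `g ^ m ≠ 1`, so `n ∣ 2 * m` and `¬ n ∣ m`, hence `zt n ^ m` is a square root of `1`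
different from `1`. -/
theorem zt_neg (Q n m : ℕ) (hQ : 2 < Q) (hn : 0 < n) (g : (ZMod Q)ˣ) (hg : orderOf g = n)
    (h : (g : ZMod Q) ^ m = -1) : zt n ^ m = -1 := by
  have : Fact (2 < Q) := ⟨hQ⟩
  have hp := zt_prim n hn
  have h2 : n ∣ m * 2 := by
    rw [← hg]
    apply orderOf_dvd_of_pow_eq_one
    ext
    push_cast
    rw [pow_mul, h]
    ring
  have h3 : ¬ n ∣ m := by
    intro hd
    rw [← hg, orderOf_dvd_iff_pow_eq_one] at hd
    have : (g : ZMod Q) ^ m = 1 := by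
      rw [← Units.val_pow_eq_pow_val, hd, Units.val_one]
    rw [h] at this
    exact ZMod.neg_one_ne_one this
  have h4 : (zt n ^ m) ^ 2 = 1 := by
    rw [← pow_mul]
    exact (hp.pow_eq_one_iff_dvd _).2 h2
  rw [pow_two] at h4
  rcases mul_self_eq_one_iff.1 h4 with h5 | h5
  · exact (h3 ((hp.pow_eq_one_iff_dvd _).1 h5)).elim
  · exact h5

end Pool.Agent.TKP
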