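import Pool.Agent.TKP.T1

set_option autoImplicit false

namespace Pool.Agent.TKP

open MvPolynomial

private theorem L4_zt (k : ℕ) (hk : 0 < k) : zt (2 * k) ^ k = -1 := by
  have hp := zt_prim (2 * k) (by omega)
  have h1 : (zt (2 * k) ^ k) ^ 2 = 1 := by
    rw [← pow_mul]
    exact (hp.pow_eq_one_iff_dvd _).2 ⟨1, by ring⟩
  rw [pow_two] at h1
  rcases mul_self_eq_one_iff.1 h1 with h | h
  · have h2 := (hp.pow_eq_one_iff_dvd _).1 h
    have := Nat.le_of_dvd hk h2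
    omega
  · exact h

/-- The trivial class: `zt (2 k) ^ k = -1`. -/
theorem good_triv (k : ℕ) (hk : 0 < k) : Good k (2 * k) 1 1 := by
  have h := L4_zt k hk
  refine ⟨by omega, dvd_rfl, by omega, by omega, ?_, ?_⟩ <;> rw [one_mul] <;> exact h

theorem loc_one (n i j : ℕ) (a b c d : ℤ) : Loc 1 n i j a b c d :=
  ⟨0, Subsingleton.elim _ _, Subsingleton.elim _ _, Subsingleton.elim _ _⟩

private theorem L4_odd (k a b : ℕ) (hk : 0 < k) (hab : Nat.Coprime a b) (h : 2 ∣ a ^ k + b ^ k) :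
    Odd a ∧ Odd b := by
  have h1 : Even (a ^ k + b ^ k) := even_iff_two_dvd.2 h
  rw [Nat.even_add, Nat.even_pow' hk.ne', Nat.even_pow' hk.ne'] at h1
  by_cases ha : Even a
  · have hb := h1.1 ha
    exfalso
    have h2 := Nat.dvd_gcd (even_iff_two_dvd.1 ha) (even_iff_two_dvd.1 hb)
    rw [hab] at h2
    omega
  · exact ⟨Nat.not_even_iff_odd.1 ha, Nat.not_even_iff_odd.1 fun hb => ha (h1.2 hb)⟩

private theorem L4_four (k a b : ℕ) (hk : Even k) (ha : Odd a) (hb : Odd b) (e : ℕ)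
    (h : 2 ^ e ∣ a ^ k + b ^ k) : e ≤ 1 := by
  by_contra he
  have h4 : 4 ∣ a ^ k + b ^ k := by
    refine dvd_trans ?_ h
    have : (4 : ℕ) = 2 ^ 2 := by norm_num
    rw [this]
    exact pow_dvd_pow 2 (by omega)
  obtain ⟨j, hj⟩ := hk
  have key : ∀ x : ℕ, Odd x → x ^ k % 4 = 1 := by
    intro x hx
    have hx2 : x ^ 2 % 4 = 1 := by
      have : x % 4 = 1 ∨ x % 4 = 3 := by
        have := Nat.odd_iff.1 hx
        omega
      rcases this with h | h <;> rw [Nat.pow_mod, h]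
    have e1 : x ^ k = (x ^ 2) ^ j := by rw [← pow_mul, hj]; ring_nf
    rw [e1, Nat.pow_mod, hx2, one_pow, Nat.one_mod]
  have h1 := key a ha
  have h2 := key b hb
  omega

private theorem L4_dvd (k a b : ℕ) (hk : Odd k) (ha : Odd a) (hb : Odd b) (e : ℕ)
    (h : 2 ^ e ∣ a ^ k + b ^ k) : 2 ^ e ∣ a + b := by
  have hp : Prime (2 : ℤ) := Int.prime_two
  have hxy : (2 : ℤ) ∣ (a : ℤ) - (-(b : ℤ)) := by
    have : Even (a + b) := ha.add_odd hb
    obtain ⟨r, hr⟩ := this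
    exact ⟨r, by have : (a : ℤ) + b = r + r := by exact_mod_cast hr
                 linarith⟩
  have hx : ¬ (2 : ℤ) ∣ (a : ℤ) := by
    intro h2
    have h3 : 2 ∣ a := by exact_mod_cast h2
    have := Nat.odd_iff.1 ha
    omega
  have hn : ¬ (2 : ℤ) ∣ (k : ℤ) := by
    intro h2
    have h3 : 2 ∣ k := by exact_mod_cast h2
    have := Nat.odd_iff.1 hk
    omega
  have hm := emultiplicity_pow_sub_pow_of_prime hp hxy hx hn
  have h1 : (2 : ℤ) ^ e ∣ (a : ℤ) ^ k - (-(b : ℤ)) ^ k := by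
    rw [hk.neg_pow, sub_neg_eq_add]
    exact_mod_cast h
  have h2 : (2 : ℤ) ^ e ∣ (a : ℤ) - (-(b : ℤ)) := by
    rw [pow_dvd_iff_le_emultiplicity] at h1 ⊢
    rw [← hm]
    exact h1
  rw [sub_neg_eq_add] at h2
  exact_mod_cast h2

/-- `q = 2`. If `e = 0` use `Q = 1`. Otherwise `a`, `b`, `c`, `d` are odd. If `k` is even,
`a ^ k + b ^ k ≡ 2` modulo `4`, so `e ≤ 1` and `Q = 1` works. If `k` is odd, the cofactor of `a + b`
in `a ^ k + b ^ k` is a sum of an odd number of odd terms, so `2 ^ e ∣ a + b` and likewise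
`2 ^ e ∣ c + d`; take `Q = 2 ^ e`, `n = 2`, `i = j = 1`, `g = -1` (`cyclotomic 2 = X + 1`;
`zt 2 = -1`). -/
theorem local_two (k a b c d : ℕ) (hk : 0 < k) (hab : Nat.Coprime a b) (hcd : Nat.Coprime c d)
    (e : ℕ) (hqe : 2 ^ e ∣ a ^ k + b ^ k) (hqe' : 2 ^ e ∣ c ^ k + d ^ k) :
    ∃ Q n i j : ℕ, Good k n i j ∧ 2 ^ e ∣ 2 * k * Q ∧ Loc Q n i j a b c d := by
  rcases Nat.eq_zero_or_pos e with he | he
  · subst he
    exact ⟨1, 2 * k, 1, 1, good_triv k hk, by simp, loc_one _ _ _ _ _ _ _⟩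
  have h2 : 2 ∣ a ^ k + b ^ k := dvd_trans (dvd_pow_self 2 he.ne') hqe
  obtain ⟨ha, hb⟩ := L4_odd k a b hk hab h2
  have h2' : 2 ∣ c ^ k + d ^ k := dvd_trans (dvd_pow_self 2 he.ne') hqe'
  obtain ⟨hc, hd⟩ := L4_odd k c d hk hcd h2'
  rcases Nat.even_or_odd k with hke | hko
  · have he1 := L4_four k a b hke ha hb e hqe
    have he2 : e = 1 := by omega
    subst he2
    refine ⟨1, 2 * k, 1, 1, good_triv k hk, ?_, loc_one _ _ _ _ _ _ _⟩
    exact ⟨k, by ring⟩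
  · have hz : zt 2 = -1 := by
      have := L4_zt 1 one_pos
      simpa using this
    refine ⟨2 ^ e, 2, 1, 1, ⟨by norm_num, ⟨k, rfl⟩, by norm_num, by norm_num, ?_, ?_⟩, ?_, ?_⟩
    · rw [one_mul, hz, hko.neg_one_pow]
    · rw [one_mul, hz, hko.neg_one_pow]
    · exact ⟨2 * k, by ring⟩
    · refine ⟨-1, ?_, ?_, ?_⟩
      · rw [Polynomial.cyclotomic_two]
        simp
      · have := (ZMod.natCast_eq_zero_iff (a + b) (2 ^ e)).2 (L4_dvd k a b hko ha hb e hqe)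
        push_cast at this ⊢
        rw [pow_one, neg_one_mul]
        exact eq_neg_of_add_eq_zero_left this
      · have := (ZMod.natCast_eq_zero_iff (c + d) (2 ^ e)).2 (L4_dvd k c d hko hc hd e hqe')
        push_cast at this ⊢
        rw [pow_one, neg_one_mul]
        exact eq_neg_of_add_eq_zero_left this

end Pool.Agent.TKP
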