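import Pool.Agent.TKP.L1
import Pool.Agent.TKP.L2
import Pool.Agent.TKP.L3
import Pool.Agent.TKP.L4

set_option autoImplicit false

namespace Pool.Agent.TKP

open MvPolynomial

private theorem L5_coprime (q a b k : ℕ) (hq : q.Prime) (hab : Nat.Coprime a b)
    (h : q ∣ a ^ k + b ^ k) (hk : 0 < k) : ¬ q ∣ a ∧ ¬ q ∣ b := by
  constructor
  · intro ha
    have h1 : q ∣ a ^ k := dvd_pow ha hk.ne'
    have h2 : q ∣ b ^ k := (Nat.dvd_add_right h1).mp h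
    have h3 : q ∣ b := hq.dvd_of_dvd_pow h2
    exact Nat.not_coprime_of_dvd_of_dvd hq.one_lt ha h3 hab
  · intro hb
    have h1 : q ∣ b ^ k := dvd_pow hb hk.ne'
    have h2 : q ∣ a ^ k := (Nat.dvd_add_left h1).mp h
    have h3 : q ∣ a := hq.dvd_of_dvd_pow h2
    exact Nat.not_coprime_of_dvd_of_dvd hq.one_lt h3 hb hab

/-- the unit `a / b` -/
private theorem L5_unit (q f t e k k1 a b : ℕ) (hq : q.Prime) (hq2 : q ≠ 2) (hk1 : 0 < k1)
    (hk : k = q ^ t * k1) (ht : t < e) (hf : f = e - t) (hab : Nat.Coprime a b)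
    (h : q ^ e ∣ a ^ k + b ^ k) :
    ∃ x : (ZMod (q ^ f))ˣ, x ^ (2 * k1) = 1 ∧ (x : ZMod (q ^ f)) ^ k = -1 ∧
      (a : ZMod (q ^ f)) = x * b := by
  have hk0 : 0 < k := by
    rw [hk]
    exact Nat.mul_pos (pow_pos hq.pos t) hk1
  have hqd : q ∣ a ^ k + b ^ k := (dvd_pow_self q (by omega)).trans h
  obtain ⟨ha, hb⟩ := L5_coprime q a b k hq hab hqd hk0
  have ca : Nat.Coprime a (q ^ f) :=
    Nat.Coprime.pow_right f ((Nat.Prime.coprime_iff_not_dvd hq).mpr ha).symm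
  have cb : Nat.Coprime b (q ^ f) :=
    Nat.Coprime.pow_right f ((Nat.Prime.coprime_iff_not_dvd hq).mpr hb).symm
  obtain ⟨u, hu⟩ : ∃ u : (ZMod (q ^ f))ˣ, (u : ZMod (q ^ f)) = a :=
    ⟨ZMod.unitOfCoprime a ca, ZMod.coe_unitOfCoprime a ca⟩
  obtain ⟨v, hv⟩ : ∃ v : (ZMod (q ^ f))ˣ, (v : ZMod (q ^ f)) = b :=
    ⟨ZMod.unitOfCoprime b cb, ZMod.coe_unitOfCoprime b cb⟩
  have hlte := lte_step q t e k1 a b hq hq2 hk1 hab ht (by rw [← hk]; exact h)
  rw [← hf] at hlte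
  have h1 : (a : ZMod (q ^ f)) ^ (2 * k1) = (b : ZMod (q ^ f)) ^ (2 * k1) := by
    have h2 : (((a : ℤ) ^ (2 * k1) - (b : ℤ) ^ (2 * k1) : ℤ) : ZMod (q ^ f)) = 0 := by
      rw [ZMod.intCast_zmod_eq_zero_iff_dvd]
      push_cast
      exact hlte
    push_cast at h2
    exact sub_eq_zero.mp h2
  have h3 : (a : ZMod (q ^ f)) ^ k + (b : ZMod (q ^ f)) ^ k = 0 := by
    have h4 : q ^ f ∣ a ^ k + b ^ k := (pow_dvd_pow q (by omega)).trans h
    have h5 : ((a ^ k + b ^ k : ℕ) : ZMod (q ^ f)) = 0 :=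
      (ZMod.natCast_eq_zero_iff _ _).mpr h4
    push_cast at h5
    exact h5
  refine ⟨u * v⁻¹, ?_, ?_, ?_⟩
  · rw [mul_pow, inv_pow, mul_inv_eq_one]
    ext
    push_cast
    rw [hu, hv]
    exact h1
  · have h6 : (u : ZMod (q ^ f)) ^ k = -(v : ZMod (q ^ f)) ^ k := by
      rw [hu, hv]
      exact eq_neg_of_add_eq_zero_left h3
    have h7 : ((v⁻¹ : (ZMod (q ^ f))ˣ) : ZMod (q ^ f)) ^ k * (v : ZMod (q ^ f)) ^ k = 1 := by
      rw [← mul_pow, Units.inv_mul, one_pow]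
    rw [Units.val_mul, mul_pow, h6, neg_mul, mul_comm, h7]
  · rw [Units.val_mul, ← hu, ← hv, mul_assoc, Units.inv_mul, mul_one]

/-- The local structure of a common value. `q = 2`: `local_two`. `q` odd: `k = q ^ t * k1` with
`q ∤ k1`; if `e ≤ t` take `Q = 1` (`good_triv`, `loc_one`). Otherwise `f = e - t`, `Q = q ^ f`; by
`lte_step` the units `x = a / b`, `y = c / d` of `ZMod Q` satisfy `x ^ (2 k1) = y ^ (2 k1) = 1`, and
`x ^ k = y ^ k = -1` because `Q ∣ a ^ k + b ^ k = c ^ k + d ^ k`; `common_root` gives `g`, `i`, `j` with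
`n = orderOf g ∣ 2 * k1`; `q ∤ n`; `cyclotomic_zero`; `zt_neg` for `g ^ (i k) = -1`, `g ^ (j k) = -1`
(`Q > 2`). -/
theorem local_class (k a b c d : ℕ) (hk : 0 < k) (hab : Nat.Coprime a b) (hcd : Nat.Coprime c d)
    (q e : ℕ) (hq : q.Prime) (hqe : q ^ e ∣ a ^ k + b ^ k) (hqe' : q ^ e ∣ c ^ k + d ^ k) :
    ∃ Q n i j : ℕ, Good k n i j ∧ q ^ e ∣ 2 * k * Q ∧ Loc Q n i j a b c d := by
  rcases eq_or_ne q 2 with rfl | hq2
  · exact local_two k a b c d hk hab hcd e hqe hqe'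
  have hq3 : 3 ≤ q := by
    have := hq.two_le
    omega
  obtain ⟨t, k1, hqk1, hkt⟩ := Nat.exists_eq_pow_mul_and_not_dvd hk.ne' q hq.ne_one
  have hk1 : 0 < k1 := by
    rcases Nat.eq_zero_or_pos k1 with h0 | h0
    · rw [h0] at hqk1
      exact absurd (dvd_zero q) hqk1
    · exact h0
  rcases Nat.lt_or_ge t e with hte | hte
  · -- `t < e`
    obtain ⟨f, hf⟩ : ∃ f, f = e - t := ⟨_, rfl⟩
    have hf0 : 0 < f := by omega
    obtain ⟨x, hx1, hxk, hax⟩ := L5_unit q f t e k k1 a b hq hq2 hk1 hkt hte hf hab hqe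
    obtain ⟨y, hy1, hyk, hcy⟩ := L5_unit q f t e k k1 c d hq hq2 hk1 hkt hte hf hcd hqe'
    obtain ⟨g, i, j, hgN, hi, hj, hxg, hyg⟩ :=
      common_root q f (2 * k1) hq hq2 (by omega) x y hx1 hy1
    have hn0 : 0 < orderOf g := by omega
    have hQ2 : 2 < q ^ f := by
      calc 2 < q := hq3
        _ = q ^ 1 := (pow_one q).symm
        _ ≤ q ^ f := Nat.pow_le_pow_right hq.pos hf0
    have hqn : ¬ q ∣ orderOf g := by
      intro hd
      rcases (Nat.Prime.dvd_mul hq).mp (hd.trans hgN) with h1 | h1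
      · exact hq2 ((Nat.prime_dvd_prime_iff_eq hq Nat.prime_two).mp h1)
      · exact hqk1 h1
    have hgi : (g : ZMod (q ^ f)) ^ (i * k) = -1 := by
      rw [pow_mul, ← Units.val_pow_eq_pow_val, ← hxg]
      exact hxk
    have hgj : (g : ZMod (q ^ f)) ^ (j * k) = -1 := by
      rw [pow_mul, ← Units.val_pow_eq_pow_val, ← hyg]
      exact hyk
    refine ⟨q ^ f, orderOf g, i, j, ⟨hn0, ?_, hi, hj, ?_, ?_⟩, ?_, ⟨(g : ZMod (q ^ f)), ?_, ?_, ?_⟩⟩
    · refine hgN.trans ?_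
      rw [hkt]
      exact ⟨q ^ t, by ring⟩
    · exact zt_neg (q ^ f) (orderOf g) (i * k) hQ2 hn0 g rfl hgi
    · exact zt_neg (q ^ f) (orderOf g) (j * k) hQ2 hn0 g rfl hgj
    · have he : e = t + f := by omega
      rw [he, pow_add, hkt]
      exact ⟨2 * k1, by ring⟩
    · exact cyclotomic_zero q f (orderOf g) hq hf0 hn0 hqn g rfl
    · rw [Int.cast_natCast, Int.cast_natCast, hax, hxg, Units.val_pow_eq_pow_val]
    · rw [Int.cast_natCast, Int.cast_natCast, hcy, hyg, Units.val_pow_eq_pow_val]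
  · -- `e ≤ t`
    refine ⟨1, 2 * k, 1, 1, good_triv k hk, ?_, loc_one _ _ _ _ _ _ _⟩
    have h1 : q ^ e ∣ q ^ t := pow_dvd_pow q hte
    have h2 : q ^ t ∣ k := ⟨k1, hkt⟩
    exact (h1.trans h2).trans ⟨2, by ring⟩

end Pool.Agent.TKP
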