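import Pool.Agent.TKP.F1
import Pool.Agent.TKP.L5
import Pool.Agent.TKP.H2

set_option autoImplicit false

namespace Pool.Agent.TKP

open MvPolynomial

theorem pair_dvd (k a b c d m : ℕ) (hk : 0 < k) (h : Ind a b c d) (hm : m ∣ a ^ k + b ^ k)
    (hm' : m ∣ c ^ k + d ^ k) :
    ∃ T : Finset (ℕ × ℕ × ℕ), T.card ≤ m.primeFactors.card ∧ (∀ t ∈ T, Good k t.1 t.2.1 t.2.2) ∧
      ∀ (D : ℕ) (P : MvPolynomial (Fin 2) ℤ), map (Int.castRingHom ℚ) P ∈ Box D D →
        (∀ t ∈ T, map (Int.castRingHom ℚ) P ∈ tors t.1 t.2.1 t.2.2) →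
        (m : ℤ) ∣ 2 * k * Pool.Agent.TKP.hm P D a b c d := by
  classical
  have hN0 : 0 < a ^ k + b ^ k := by
    have : 0 < b ^ k := pow_pos h.b0 k
    omega
  have hm0 : m ≠ 0 := by
    rintro rfl
    rw [zero_dvd_iff] at hm
    omega
  have key : ∀ q : m.primeFactors, ∃ Q n i j : ℕ, Good k n i j ∧
      (q : ℕ) ^ (m.factorization q) ∣ 2 * k * Q ∧ Loc Q n i j a b c d := fun q =>
    local_class k a b c d hk h.ab h.cd q _ (Nat.prime_of_mem_primeFactors q.2)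
      (dvd_trans (Nat.ordProj_dvd m q) hm) (dvd_trans (Nat.ordProj_dvd m q) hm')
  choose Q n i j h1 h2 h3 using key
  refine ⟨Finset.univ.image (fun q => (n q, i q, j q)), ?_, ?_, ?_⟩
  · refine le_trans Finset.card_image_le ?_
    simp
  · intro t ht
    obtain ⟨q, _, rfl⟩ := Finset.mem_image.1 ht
    exact h1 q
  · intro D P hP hT
    have h4 : ∀ q : m.primeFactors, (Q q : ℤ) ∣ Pool.Agent.TKP.hm P D a b c d := by
      intro q
      have hTq := hT (n q, i q, j q) (Finset.mem_image.2 ⟨q, Finset.mem_univ _, rfl⟩)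
      exact hm_zero P D hP (n q) (i q) (j q) (Q q) (h1 q).1 hTq a b c d (h3 q)
    generalize Pool.Agent.TKP.hm P D a b c d = z at h4 ⊢
    have hcast : (m : ℤ) ∣ 2 * k * z ↔ m ∣ 2 * k * z.natAbs := by
      rw [← Int.natAbs_dvd_natAbs, Int.natAbs_mul, Int.natAbs_mul]
      simp
    rw [hcast, Nat.dvd_iff_prime_pow_dvd_dvd]
    intro q e hq hqe
    rcases Nat.eq_zero_or_pos e with rfl | he
    · simp
    have hqm : q ∈ m.primeFactors :=
      Nat.mem_primeFactors.2 ⟨hq, dvd_trans (dvd_pow_self q he.ne') hqe, hm0⟩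
    have hle : e ≤ m.factorization q := (hq.pow_dvd_iff_le_factorization hm0).1 hqe
    have h5 : Q ⟨q, hqm⟩ ∣ z.natAbs := by
      have := Int.natAbs_dvd_natAbs.2 (h4 ⟨q, hqm⟩)
      simpa using this
    calc q ^ e ∣ q ^ (m.factorization q) := pow_dvd_pow q hle
      _ ∣ 2 * k * Q ⟨q, hqm⟩ := h2 ⟨q, hqm⟩
      _ ∣ 2 * k * z.natAbs := mul_dvd_mul_left _ h5

end Pool.Agent.TKP
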