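import Pool.Agent.TKP.F2

set_option autoImplicit false

namespace Pool.Agent.TKP

open MvPolynomial

/-- the constant for all pairs `(T, D)` at once -/
theorem uniform (k K l : ℕ) (ε : ℤ) (hk : 0 < k) (hA : Adm k ε l) (hK4 : 4 ≤ K)
    (hKl : l + 1 ≤ K) :
    ∃ C : ℕ, ∀ (T : Finset (ℕ × ℕ × ℕ)) (D : ℕ), D < k → (∀ t ∈ T, Good k t.1 t.2.1 t.2.2) →
      K * (k * T.card) ≤ (D + 1) ^ 2 → ∀ a b c d m : ℕ, Ind a b c d → m ∣ a ^ k + b ^ k →
      (∀ P : MvPolynomial (Fin 2) ℤ, map (Int.castRingHom ℚ) P ∈ Box D D →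
        (∀ t ∈ T, map (Int.castRingHom ℚ) P ∈ tors t.1 t.2.1 t.2.2) →
        (m : ℤ) ∣ 2 * k * hm P D a b c d) →
      m ≤ C * (max (max a b) (max c d)) ^ (2 * D) := by
  classical
  let U : Finset (ℕ × ℕ × ℕ) :=
    Finset.range (2 * k + 1) ×ˢ (Finset.range (2 * k + 1) ×ˢ Finset.range (2 * k + 1))
  have key : ∀ (T : Finset (ℕ × ℕ × ℕ)) (D : ℕ), ∃ C : ℕ, (∀ t ∈ T, Good k t.1 t.2.1 t.2.2) →
      K * (k * T.card) ≤ (D + 1) ^ 2 → ∀ a b c d m : ℕ, Ind a b c d → m ∣ a ^ k + b ^ k →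
      (∀ P : MvPolynomial (Fin 2) ℤ, map (Int.castRingHom ℚ) P ∈ Box D D →
        (∀ t ∈ T, map (Int.castRingHom ℚ) P ∈ tors t.1 t.2.1 t.2.2) →
        (m : ℤ) ∣ 2 * k * hm P D a b c d) →
      m ≤ C * (max (max a b) (max c d)) ^ (2 * D) := by
    intro T D
    by_cases h1 : ∀ t ∈ T, Good k t.1 t.2.1 t.2.2
    · by_cases h2 : K * (k * T.card) ≤ (D + 1) ^ 2
      · obtain ⟨C, hC⟩ := pair_bound k K l ε hk hA hK4 hKl T h1 D h2
        exact ⟨C, fun _ _ => hC⟩
      · exact ⟨0, fun _ h => absurd h h2⟩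
    · exact ⟨0, fun h => absurd h h1⟩
  choose C hC using key
  refine ⟨∑ x ∈ U.powerset ×ˢ Finset.range k, C x.1 x.2, ?_⟩
  intro T D hD hT hTD a b c d m h1 h2 h3
  have hTU : T ∈ U.powerset := by
    rw [Finset.mem_powerset]
    intro t ht
    have hg := hT t ht
    have h4 := Nat.le_of_dvd (by omega) hg.2.1
    have h5 := hg.2.2.1
    have h6 := hg.2.2.2.1
    simp only [U, Finset.mem_product, Finset.mem_range]
    omega
  have hmem : (T, D) ∈ U.powerset ×ˢ Finset.range k :=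
    Finset.mem_product.2 ⟨hTU, Finset.mem_range.2 hD⟩
  have h7 : C T D ≤ ∑ x ∈ U.powerset ×ˢ Finset.range k, C x.1 x.2 :=
    Finset.single_le_sum (f := fun x : Finset (ℕ × ℕ × ℕ) × ℕ => C x.1 x.2)
      (fun _ _ => Nat.zero_le _) hmem
  exact le_trans (hC T D hT hTD a b c d m h1 h2 h3) (Nat.mul_le_mul_right _ h7)

/-- the bound for ordered pairs -/
theorem bound_two (k K l : ℕ) (ε : ℤ) (hk : 0 < k) (hA : Adm k ε l) (hK4 : 4 ≤ K)
    (hKl : l + 1 ≤ K) :
    ∃ C : ℝ, 1 ≤ C ∧ ∀ a b c d m : ℕ, Ind a b c d → m ∣ a ^ k + b ^ k → m ∣ c ^ k + d ^ k →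
      (m : ℝ) ≤ C * ((max (max a b) (max c d) : ℕ) : ℝ) ^
        (2 * Real.sqrt (K * k * m.primeFactors.card)) := by
  obtain ⟨C, hC⟩ := uniform k K l ε hk hA hK4 hKl
  refine ⟨C + 2, by
    have : (0 : ℝ) ≤ C := Nat.cast_nonneg C
    linarith, ?_⟩
  intro a b c d m h hm hm'
  have ha0 : 0 < a := h.a0
  have hM1 : 1 ≤ max (max a b) (max c d) := by omega
  have hM : (1 : ℝ) ≤ ((max (max a b) (max c d) : ℕ) : ℝ) := by exact_mod_cast hM1
  set M : ℝ := ((max (max a b) (max c d) : ℕ) : ℝ) with hMdef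
  have hN0 : 0 < a ^ k + b ^ k := by
    have : 0 < b ^ k := pow_pos h.b0 k
    omega
  set ω := m.primeFactors.card with hω
  set r : ℝ := Real.sqrt (K * k * ω) with hr
  have hr0 : 0 ≤ r := Real.sqrt_nonneg _
  have hC0 : (0 : ℝ) ≤ C := Nat.cast_nonneg C
  have hmN : m ≤ a ^ k + b ^ k := Nat.le_of_dvd hN0 hm
  have hMr : 1 ≤ M ^ (2 * r) := Real.one_le_rpow hM (by positivity)
  rcases le_or_gt (k : ℝ) (2 * r) with h1 | h1
  · -- trivial range
    have h2 : (m : ℝ) ≤ 2 * M ^ (k : ℝ) := by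
      have h3 : m ≤ 2 * (max (max a b) (max c d)) ^ k := by
        have h4 : a ^ k ≤ (max (max a b) (max c d)) ^ k := Nat.pow_le_pow_left (by omega) k
        have h5 : b ^ k ≤ (max (max a b) (max c d)) ^ k := Nat.pow_le_pow_left (by omega) k
        omega
      rw [Real.rpow_natCast, hMdef]
      exact_mod_cast h3
    calc (m : ℝ) ≤ 2 * M ^ (k : ℝ) := h2
      _ ≤ 2 * M ^ (2 * r) :=
        mul_le_mul_of_nonneg_left (Real.rpow_le_rpow_of_exponent_le hM h1) (by norm_num)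
      _ ≤ (C + 2) * M ^ (2 * r) := mul_le_mul_of_nonneg_right (by linarith) (by linarith)
  · obtain ⟨T, hT1, hT2, hT3⟩ := pair_dvd k a b c d m hk h hm hm'
    rcases Nat.eq_zero_or_pos ω with hω0 | hω0
    · -- no prime factor
      have h2 : m = 1 := by
        have h3 : m.primeFactors = ∅ := Finset.card_eq_zero.1 hω0
        rcases Nat.primeFactors_eq_empty.1 h3 with h4 | h4
        · subst h4
          rw [zero_dvd_iff] at hm
          omega
        · exact h4
      rw [h2]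
      push_cast
      nlinarith
    · have hr1 : 0 < r := by
        rw [hr]
        apply Real.sqrt_pos.2
        have : 0 < K := by omega
        positivity
      set D := ⌈r⌉₊ - 1 with hD
      have hceil : 0 < ⌈r⌉₊ := Nat.ceil_pos.2 hr1
      have hD1 : D + 1 = ⌈r⌉₊ := by omega
      have hDr : (D : ℝ) ≤ r := by
        have h3 := Nat.ceil_lt_add_one hr0
        have h4 : (D : ℝ) + 1 = (⌈r⌉₊ : ℝ) := by exact_mod_cast hD1
        linarith
      have hDk : D < k := by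
        have : (D : ℝ) < k := by
          have : (0 : ℝ) ≤ D := Nat.cast_nonneg D
          linarith
        exact_mod_cast this
      have hsq : K * (k * ω) ≤ (D + 1) ^ 2 := by
        have h3 : r ≤ ((D + 1 : ℕ) : ℝ) := by
          rw [hD1]
          exact Nat.le_ceil r
        have h4 : r ^ 2 = K * k * ω := Real.sq_sqrt (by positivity)
        have h5 : (K * k * ω : ℝ) ≤ ((D + 1 : ℕ) : ℝ) ^ 2 := by
          rw [← h4]
          exact pow_le_pow_left₀ hr0 h3 2
        have h6 : ((K * k * ω : ℕ) : ℝ) ≤ (((D + 1) ^ 2 : ℕ) : ℝ) := by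
          push_cast
          push_cast at h5
          exact h5
        have h7 : K * k * ω ≤ (D + 1) ^ 2 := by exact_mod_cast h6
        rw [← mul_assoc]
        exact h7
      have h8 : m ≤ C * (max (max a b) (max c d)) ^ (2 * D) :=
        hC T D hDk hT2 (le_trans (Nat.mul_le_mul_left _ (Nat.mul_le_mul_left _ hT1)) hsq)
          a b c d m h hm (fun P hP hPT => hT3 D P hP hPT)
      have h9 : (m : ℝ) ≤ C * M ^ (2 * D) := by
        rw [hMdef]
        exact_mod_cast h8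
      have h10 : M ^ (2 * D) ≤ M ^ (2 * r) := by
        rw [← Real.rpow_natCast]
        apply Real.rpow_le_rpow_of_exponent_le hM
        push_cast
        linarith
      calc (m : ℝ) ≤ C * M ^ (2 * D) := h9
        _ ≤ C * M ^ (2 * r) := mul_le_mul_of_nonneg_left h10 hC0
        _ ≤ (C + 2) * M ^ (2 * r) := mul_le_mul_of_nonneg_right (by linarith) (by linarith)

end Pool.Agent.TKP
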