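import Pool.Agent.TKP.F3
import Pool.Agent.TKP.D3

set_option autoImplicit false

namespace Pool.Agent.TKP

theorem F4_ne (k a b c d : ℕ) (hk : 0 < k) (ha : 0 < a) (hc : 0 < c) (hd : 0 < d)
    (hab : Nat.Coprime a b) (h : a ^ k + b ^ k = c ^ k + d ^ k)
    (hne : ¬((a = c ∧ b = d) ∨ (a = d ∧ b = c))) : a ≠ b := by
  rintro rfl
  have h1 : a = 1 := (Nat.coprime_self a).1 hab
  subst h1
  rw [one_pow] at h
  have h2 : 1 ≤ c ^ k := Nat.one_le_pow _ _ hc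
  have h3 : 1 ≤ d ^ k := Nat.one_le_pow _ _ hd
  have h4 : c ^ k = 1 := by omega
  have h5 : d ^ k = 1 := by omega
  have h6 : c = 1 := (Nat.pow_eq_one.1 h4).resolve_right hk.ne'
  have h7 : d = 1 := (Nat.pow_eq_one.1 h5).resolve_right hk.ne'
  exact hne (Or.inl ⟨h6.symm, h7.symm⟩)

theorem F4_two (k a b c d : ℕ) (hk : 0 < k) (hb : 0 < b) (hd : 0 < d) (hba : b < a) (hdc : d < c)
    (hab : Nat.Coprime a b) (hcd : Nat.Coprime c d) (h : a ^ k + b ^ k = c ^ k + d ^ k)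
    (hne : ¬((a = c ∧ b = d) ∨ (a = d ∧ b = c))) : Two k a b c d := by
  refine ⟨hb, hd, hba, hdc, hab, hcd, h, ?_⟩
  rintro rfl
  have h1 : b ^ k = d ^ k := by omega
  exact hne (Or.inl ⟨rfl, Nat.pow_left_injective hk.ne' h1⟩)

theorem ind_of_two (k a b c d : ℕ) (hk : 0 < k) (h : Two k a b c d) : Ind a b c d :=
  ⟨lt_of_le_of_lt (Nat.zero_le _) h.ba, h.b0, lt_of_le_of_lt (Nat.zero_le _) h.dc, h.d0, h.ab, h.cd,
    independent k a b c d hk h⟩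

theorem ind_of_zpow (a b c d : ℕ) (ha : 0 < a) (hb : 0 < b) (hc : 0 < c) (hd : 0 < d)
    (hab : Nat.Coprime a b) (hcd : Nat.Coprime c d)
    (h : ∀ u v : ℤ, ((a : ℚ) / b) ^ u = ((c : ℚ) / d) ^ v → u = 0 ∧ v = 0) : Ind a b c d := by
  refine ⟨ha, hb, hc, hd, hab, hcd, ?_⟩
  intro i j i' j' he
  have hx : ((a : ℚ) / b) ≠ 0 := by positivity
  have hy : ((c : ℚ) / d) ≠ 0 := by positivity
  have h1 : ((a : ℚ) / b) ^ ((i : ℤ) - i') = ((c : ℚ) / d) ^ ((j' : ℤ) - j) := by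
    rw [zpow_sub₀ hx, zpow_sub₀ hy, div_eq_div_iff (zpow_ne_zero _ hx) (zpow_ne_zero _ hy)]
    simp only [zpow_natCast]
    rw [he]
    ring
  have h2 := h _ _ h1
  constructor <;> omega

/-- the bound for unordered pairs -/
theorem bound_all (k K l : ℕ) (ε : ℤ) (hk : 0 < k) (hA : Adm k ε l) (hK4 : 4 ≤ K)
    (hKl : l + 1 ≤ K) :
    ∃ C : ℝ, 1 ≤ C ∧ ∀ a b c d m : ℕ, 0 < a → 0 < b → 0 < c → 0 < d → Nat.Coprime a b →
      Nat.Coprime c d →
      ((∀ u v : ℤ, ((a : ℚ) / b) ^ u = ((c : ℚ) / d) ^ v → u = 0 ∧ v = 0) ∨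
        (a ^ k + b ^ k = c ^ k + d ^ k ∧ ¬((a = c ∧ b = d) ∨ (a = d ∧ b = c)))) →
      m ∣ a ^ k + b ^ k → m ∣ c ^ k + d ^ k →
      (m : ℝ) ≤ C * ((max (max a b) (max c d) : ℕ) : ℝ) ^
        (2 * Real.sqrt (K * k * m.primeFactors.card)) := by
  obtain ⟨C, hC1, hC⟩ := bound_two k K l ε hk hA hK4 hKl
  refine ⟨C, hC1, ?_⟩
  intro a b c d m ha hb hc hd hab hcd hcase hm hm'
  rcases hcase with hcase | ⟨h, hne⟩
  · exact hC a b c d m (ind_of_zpow a b c d ha hb hc hd hab hcd hcase) hm hm'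
  have hab' : a ≠ b := F4_ne k a b c d hk ha hc hd hab h hne
  have hcd' : c ≠ d := F4_ne k c d a b hk hc ha hb hcd h.symm (by
    rintro (⟨h1, h2⟩ | ⟨h1, h2⟩)
    · exact hne (Or.inl ⟨h1.symm, h2.symm⟩)
    · exact hne (Or.inr ⟨h2.symm, h1.symm⟩))
  have hmba : m ∣ b ^ k + a ^ k := by rw [add_comm]; exact hm
  have hmdc : m ∣ d ^ k + c ^ k := by rw [add_comm]; exact hm'
  rcases lt_or_gt_of_ne hab' with h1 | h1 <;> rcases lt_or_gt_of_ne hcd' with h2 | h2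
  · have hT := F4_two k b a d c hk ha hc h1 h2 hab.symm hcd.symm (by omega) (by tauto)
    have h3 := hC b a d c m (ind_of_two k _ _ _ _ hk hT) hmba hmdc
    rwa [max_comm b a, max_comm d c] at h3
  · have hT := F4_two k b a c d hk ha hd h1 h2 hab.symm hcd (by omega) (by tauto)
    have h3 := hC b a c d m (ind_of_two k _ _ _ _ hk hT) hmba hm'
    rwa [max_comm b a] at h3
  · have hT := F4_two k a b d c hk hb hc h1 h2 hab hcd.symm (by omega) (by tauto)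
    have h3 := hC a b d c m (ind_of_two k _ _ _ _ hk hT) hm hmdc
    rwa [max_comm d c] at h3
  · have hT := F4_two k a b c d hk hb hd h1 h2 hab hcd h hne
    exact hC a b c d m (ind_of_two k _ _ _ _ hk hT) hm hm'

/-- all but finitely many common values have at least `k / (4 K)` prime factors -/
theorem finite_few (k K l : ℕ) (ε : ℤ) (hk : 0 < k) (hA : Adm k ε l) (hK4 : 4 ≤ K)
    (hKl : l + 1 ≤ K) :
    {x : ℕ × ℕ × ℕ × ℕ | 0 < x.1 ∧ 0 < x.2.1 ∧ 0 < x.2.2.1 ∧ 0 < x.2.2.2 ∧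
      Nat.Coprime x.1 x.2.1 ∧ Nat.Coprime x.2.2.1 x.2.2.2 ∧
      x.1 ^ k + x.2.1 ^ k = x.2.2.1 ^ k + x.2.2.2 ^ k ∧
      ¬((x.1 = x.2.2.1 ∧ x.2.1 = x.2.2.2) ∨ (x.1 = x.2.2.2 ∧ x.2.1 = x.2.2.1)) ∧
      4 * K * (x.1 ^ k + x.2.1 ^ k).primeFactors.card < k}.Finite := by
  obtain ⟨C, hC1, hC⟩ := bound_all k K l ε hk hA hK4 hKl
  set B := ⌈C ^ 2⌉₊ with hB
  refine Set.Finite.subset (Set.finite_Icc (0, 0, 0, 0) (B, B, B, B)) ?_
  rintro ⟨a, b, c, d⟩ ⟨ha, hb, hc, hd, hab, hcd, h, hne, hω⟩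
  simp only at ha hb hc hd hab hcd h hne hω
  have h1 := hC a b c d (a ^ k + b ^ k) ha hb hc hd hab hcd (Or.inr ⟨h, hne⟩) dvd_rfl
    (by rw [h])
  set ω := (a ^ k + b ^ k).primeFactors.card with hωdef
  have hMB : max (max a b) (max c d) ≤ B := by
    set M := max (max a b) (max c d) with hMdef
    have hM1 : 1 ≤ M := by omega
    have hM : (1 : ℝ) ≤ (M : ℝ) := by exact_mod_cast hM1
    have hMN : M ^ k ≤ a ^ k + b ^ k := by
      have h2 : M = a ∨ M = b ∨ M = c ∨ M = d := by omega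
      rcases h2 with h2 | h2 | h2 | h2
      · rw [h2]; omega
      · rw [h2]; omega
      · rw [h2, h]; omega
      · rw [h2, h]; omega
    have hMN' : (M : ℝ) ^ (k : ℝ) ≤ ((a ^ k + b ^ k : ℕ) : ℝ) := by
      rw [Real.rpow_natCast]
      exact_mod_cast hMN
    have hexp : 2 * Real.sqrt (K * k * ω) ≤ (k : ℝ) - 1 / 2 := by
      have h3 : (4 * K * ω + 1 : ℝ) ≤ k := by exact_mod_cast hω
      have hk1 : (1 : ℝ) ≤ k := by exact_mod_cast hk
      have h4 : Real.sqrt (K * k * ω) ≤ ((k : ℝ) - 1 / 2) / 2 := by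
        apply Real.sqrt_le_iff.2
        constructor
        · linarith
        · nlinarith
      linarith
    have h5 : (M : ℝ) ^ (k : ℝ) ≤ C * (M : ℝ) ^ ((k : ℝ) - 1 / 2) :=
      le_trans hMN' (le_trans h1 (mul_le_mul_of_nonneg_left
        (Real.rpow_le_rpow_of_exponent_le hM hexp) (by linarith)))
    have h6 : (M : ℝ) ^ (k : ℝ) = (M : ℝ) ^ ((k : ℝ) - 1 / 2) * (M : ℝ) ^ (1 / 2 : ℝ) := by
      rw [← Real.rpow_add (by linarith)]
      congr 1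
      ring
    have h7 : 0 < (M : ℝ) ^ ((k : ℝ) - 1 / 2) := Real.rpow_pos_of_pos (by linarith) _
    have h8 : (M : ℝ) ^ (1 / 2 : ℝ) ≤ C := by
      rw [h6, mul_comm C] at h5
      exact le_of_mul_le_mul_left h5 h7
    have h9 : (M : ℝ) ≤ C ^ 2 := by
      have h10 : ((M : ℝ) ^ (1 / 2 : ℝ)) ^ 2 = M := by
        rw [← Real.rpow_natCast, ← Real.rpow_mul (by linarith)]
        norm_num
      rw [← h10]
      exact pow_le_pow_left₀ (Real.rpow_nonneg (by linarith) _) h8 2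
    have h11 : (M : ℝ) ≤ (B : ℝ) := le_trans h9 (Nat.le_ceil _)
    exact_mod_cast h11
  simp only [Set.mem_Icc, Prod.mk_le_mk, zero_le, true_and, and_self]
  omega

end Pool.Agent.TKP
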