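import Pool.Agent.TKP.Def

set_option autoImplicit false

namespace Pool.Agent.TKP

open MvPolynomial

/-- Let `q` be an odd prime, `k = q ^ t * k1`, `a`, `b` coprime, `q ^ e ∣ a ^ k + b ^ k`, `t < e`.
Then `q` divides neither `a` nor `b`, `q ^ e` divides `a ^ (2 k) - b ^ (2 k) = u ^ (q ^ t) - v ^ (q ^ t)`
with `u = a ^ (2 k1)`, `v = b ^ (2 k1)`; modulo `q` this gives `u ≡ v` (Frobenius,
`Int.emod` / `ZMod.pow_card` iterated), and lifting the exponent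
(`Int.emultiplicity_pow_sub_pow` or `padicValNat`/`padicValInt` versions) gives
`q ^ (e - t) ∣ u - v`. -/
theorem lte_step (q t e k1 a b : ℕ) (hq : q.Prime) (hq2 : q ≠ 2) (hk1 : 0 < k1)
    (hab : Nat.Coprime a b) (ht : t < e) (h : q ^ e ∣ a ^ (q ^ t * k1) + b ^ (q ^ t * k1)) :
    (q : ℤ) ^ (e - t) ∣ (a : ℤ) ^ (2 * k1) - (b : ℤ) ^ (2 * k1) := by
  have hfact : Fact q.Prime := ⟨hq⟩
  have hodd : Odd q := hq.odd_of_ne_two hq2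
  have hK : q ^ t * k1 ≠ 0 := Nat.mul_ne_zero (pow_ne_zero _ hq.ne_zero) hk1.ne'
  have hqdvd : q ∣ a ^ (q ^ t * k1) + b ^ (q ^ t * k1) :=
    (dvd_pow_self q (by omega : e ≠ 0)).trans h
  have hqa : ¬ q ∣ a := by
    intro ha
    have h1 : q ∣ a ^ (q ^ t * k1) := ha.trans (dvd_pow_self a hK)
    have h2 : q ∣ b ^ (q ^ t * k1) := (Nat.dvd_add_right h1).1 hqdvd
    have h3 : q ∣ b := hq.dvd_of_dvd_pow h2
    have h4 : q ∣ Nat.gcd a b := Nat.dvd_gcd ha h3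
    rw [hab] at h4
    exact hq.one_lt.ne' (Nat.dvd_one.1 h4)
  have hqA : ¬ (q : ℤ) ∣ (a : ℤ) ^ (2 * k1) := by
    intro h1
    have h2 : q ∣ a ^ (2 * k1) := by exact_mod_cast h1
    exact hqa (hq.dvd_of_dvd_pow h2)
  have hdvd : (q : ℤ) ^ e ∣ ((a : ℤ) ^ (2 * k1)) ^ (q ^ t) - ((b : ℤ) ^ (2 * k1)) ^ (q ^ t) := by
    have h1 : ((a : ℤ) ^ (2 * k1)) ^ (q ^ t) - ((b : ℤ) ^ (2 * k1)) ^ (q ^ t) =
        ((a : ℤ) ^ (q ^ t * k1) + (b : ℤ) ^ (q ^ t * k1)) *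
          ((a : ℤ) ^ (q ^ t * k1) - (b : ℤ) ^ (q ^ t * k1)) := by
      rw [← pow_mul, ← pow_mul]
      have e1 : 2 * k1 * q ^ t = (q ^ t * k1) * 2 := by ring
      rw [e1, pow_mul, pow_mul]
      ring
    rw [h1]
    refine Dvd.dvd.mul_right ?_ _
    exact_mod_cast h
  have hmod : (q : ℤ) ∣ (a : ℤ) ^ (2 * k1) - (b : ℤ) ^ (2 * k1) := by
    have h1 : (q : ℤ) ∣ ((a : ℤ) ^ (2 * k1)) ^ (q ^ t) - ((b : ℤ) ^ (2 * k1)) ^ (q ^ t) :=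
      (dvd_pow_self (q : ℤ) (by omega : e ≠ 0)).trans hdvd
    rw [← ZMod.intCast_zmod_eq_zero_iff_dvd] at h1 ⊢
    push_cast at h1 ⊢
    rw [ZMod.pow_card_pow, ZMod.pow_card_pow] at h1
    exact h1
  have hlte := Int.emultiplicity_pow_sub_pow hq hodd hmod hqA (q ^ t)
  have hle : (e : ℕ∞) ≤ emultiplicity (q : ℤ) (((a : ℤ) ^ (2 * k1)) ^ (q ^ t) -
      ((b : ℤ) ^ (2 * k1)) ^ (q ^ t)) := pow_dvd_iff_le_emultiplicity.1 hdvd
  rw [hlte, hq.emultiplicity_pow_self] at hle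
  apply pow_dvd_iff_le_emultiplicity.2
  rw [ENat.natCast_sub]
  exact tsub_le_iff_right.2 hle

end Pool.Agent.TKP
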