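import Pool.Agent.TKP.Def

set_option autoImplicit false

namespace Pool.Agent.TKP

open MvPolynomial

/-- Arithmetic. `n ≥ 1`. Put `s = d + e`, `r = d * e`, `p = n - n / 2 ≥ n / 2`. From `h1` and `hw`:
`n s ≤ w + r ≤ n^2 / K + r`, and `r ≤ n d`, `r ≤ n e` give `n d ≤ w`, `n e ≤ w`, so `d, e ≤ n / K ≤ n / 4`
and the truncated differences in `h2` are true ones: `p s ≤ (2 l + 1) r`. With `r ≤ s^2 / 4` and
`p ≥ n / 2`: `2 n ≤ (2 l + 1) s` (`s > 0`). Further `s ≤ 2 n / K ≤ n / 2` and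
`n s - s^2 / 4 ≤ n^2 / K ≤ n^2 / (l + 1)`; the left side is increasing in `s` for `s ≤ 2 n`, so it is at
least its value `n^2 (4 l + 1) / (2 l + 1)^2` at `s = 2 n / (2 l + 1)`; but
`(4 l + 1) (l + 1) > (2 l + 1)^2` because `l > 0`. -/
theorem numeric (n w d e l K : ℕ) (hK4 : 4 ≤ K) (hKl : l + 1 ≤ K) (hl : 2 ≤ l) (hw : K * w ≤ n ^ 2)
    (hde : 0 < d + e) (hd : d ≤ n) (he : e ≤ n)
    (h1 : n * n ≤ w + (n - d) * (n - e))
    (h2 : (n - n / 2) * (n - n / 2) ≤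
      2 * l * (d * e) + ((n - n / 2) - d) * ((n - n / 2) - e)) : False := by
  have hn : 0 < n := by omega
  -- `h1` in the integers
  have h1' : (n : ℤ) * (d + e) ≤ w + d * e := by
    have h : (n : ℤ) * n ≤ w + (n - d) * (n - e) := by
      have h3 : ((n * n : ℕ) : ℤ) ≤ ((w + (n - d) * (n - e) : ℕ) : ℤ) := by exact_mod_cast h1
      push_cast [Nat.cast_sub hd, Nat.cast_sub he] at h3
      exact h3
    have h3 : ((n : ℤ) - d) * (n - e) = n * n - n * (d + e) + d * e := by ring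
    linarith
  have hwz : (K : ℤ) * w ≤ n ^ 2 := by exact_mod_cast hw
  have hdz : (d : ℤ) ≤ n := by exact_mod_cast hd
  have hez : (e : ℤ) ≤ n := by exact_mod_cast he
  have hd0 : (0 : ℤ) ≤ d := Int.natCast_nonneg d
  have he0 : (0 : ℤ) ≤ e := Int.natCast_nonneg e
  have hl0 : (2 : ℤ) ≤ l := by exact_mod_cast hl
  have hK4z : (4 : ℤ) ≤ K := by exact_mod_cast hK4
  have hKlz : (l : ℤ) + 1 ≤ K := by exact_mod_cast hKl
  have hnz : (0 : ℤ) < n := by exact_mod_cast hn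
  have hdw : (n : ℤ) * d ≤ w := by
    have h3 : (d : ℤ) * e ≤ n * e := mul_le_mul_of_nonneg_right hdz he0
    have h4 : (n : ℤ) * (d + e) = n * d + n * e := by ring
    linarith
  have hew : (n : ℤ) * e ≤ w := by
    have h3 : (d : ℤ) * e ≤ d * n := mul_le_mul_of_nonneg_left hez hd0
    have h4 : (n : ℤ) * (d + e) = d * n + n * e := by ring
    linarith
  have hK0 : (0 : ℤ) ≤ K := by linarith
  have hd4 : 4 * (d : ℤ) ≤ n := by
    have h3 : (n : ℤ) * (K * d) ≤ n * n := by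
      calc (n : ℤ) * (K * d) = K * (n * d) := by ring
        _ ≤ K * w := mul_le_mul_of_nonneg_left hdw hK0
        _ ≤ n ^ 2 := hwz
        _ = n * n := by ring
    have h4 : (K : ℤ) * d ≤ n := le_of_mul_le_mul_left h3 hnz
    exact le_trans (mul_le_mul_of_nonneg_right hK4z hd0) h4
  have he4 : 4 * (e : ℤ) ≤ n := by
    have h3 : (n : ℤ) * (K * e) ≤ n * n := by
      calc (n : ℤ) * (K * e) = K * (n * e) := by ring
        _ ≤ K * w := mul_le_mul_of_nonneg_left hew hK0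
        _ ≤ n ^ 2 := hwz
        _ = n * n := by ring
    have h4 : (K : ℤ) * e ≤ n := le_of_mul_le_mul_left h3 hnz
    exact le_trans (mul_le_mul_of_nonneg_right hK4z he0) h4
  have hdn : d ≤ n - n / 2 := by omega
  have hen : e ≤ n - n / 2 := by omega
  obtain ⟨q, hq⟩ : ∃ q, q = n - n / 2 := ⟨_, rfl⟩
  rw [← hq] at h2 hdn hen
  have hq2 : (n : ℤ) ≤ 2 * q := by omega
  have h2' : (q : ℤ) * (d + e) ≤ (2 * l + 1) * (d * e) := by
    have h : (q : ℤ) * q ≤ 2 * l * (d * e) + (q - d) * (q - e) := by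
      have h3 : ((q * q : ℕ) : ℤ) ≤ ((2 * l * (d * e) + (q - d) * (q - e) : ℕ) : ℤ) := by
        exact_mod_cast h2
      push_cast [Nat.cast_sub hdn, Nat.cast_sub hen] at h3
      exact h3
    have h3 : ((q : ℤ) - d) * (q - e) = q * q - q * (d + e) + d * e := by ring
    have h4 : (2 * (l : ℤ) + 1) * (d * e) = 2 * l * (d * e) + d * e := by ring
    linarith
  obtain ⟨s, hs⟩ : ∃ s : ℤ, s = d + e := ⟨_, rfl⟩
  have hs0 : 0 < s := by rw [hs]; exact_mod_cast hde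
  have hde4 : 4 * ((d : ℤ) * e) ≤ s ^ 2 := by
    have h3 : (0 : ℤ) ≤ ((d : ℤ) - e) ^ 2 := sq_nonneg _
    have h4 : s ^ 2 = ((d : ℤ) - e) ^ 2 + 4 * (d * e) := by rw [hs]; ring
    linarith
  rw [← hs] at h1' h2'
  have hsn : 2 * s ≤ n := by rw [hs]; linarith
  have hC : 2 * (n : ℤ) ≤ (2 * l + 1) * s := by
    have h3 : 2 * (n : ℤ) * s ≤ (2 * l + 1) * s * s := by
      have h4 : (n : ℤ) * s ≤ 2 * q * s := mul_le_mul_of_nonneg_right hq2 hs0.le
      have h5 : (2 * (l : ℤ) + 1) * (4 * (d * e)) ≤ (2 * l + 1) * s ^ 2 :=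
        mul_le_mul_of_nonneg_left hde4 (by linarith)
      have h6 : (2 * (l : ℤ) + 1) * (4 * (d * e)) = 4 * ((2 * l + 1) * (d * e)) := by ring
      have h7 : (2 * (l : ℤ) + 1) * s ^ 2 = (2 * l + 1) * s * s := by ring
      have h8 : 2 * (q : ℤ) * s = 2 * (q * s) := by ring
      linarith
    exact le_of_mul_le_mul_right h3 hs0
  have hD : ((l : ℤ) + 1) * (4 * n * s - s ^ 2) ≤ 4 * n ^ 2 := by
    have h3 : 0 ≤ 4 * (n : ℤ) * s - s ^ 2 := by
      have h5 : 4 * (n : ℤ) * s - s ^ 2 = s * (4 * n - s) := by ring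
      rw [h5]
      exact mul_nonneg hs0.le (by linarith)
    have h4 : 4 * (n : ℤ) * s - s ^ 2 ≤ 4 * w := by linarith
    calc ((l : ℤ) + 1) * (4 * n * s - s ^ 2) ≤ K * (4 * n * s - s ^ 2) :=
          mul_le_mul_of_nonneg_right hKlz h3
      _ ≤ K * (4 * w) := mul_le_mul_of_nonneg_left h4 hK0
      _ ≤ 4 * n ^ 2 := by linarith
  obtain ⟨t, ht⟩ : ∃ t : ℤ, t = (2 * l + 1) * s - 2 * n := ⟨_, rfl⟩
  have ht0 : 0 ≤ t := by rw [ht]; linarith
  have ht1 : t ≤ 8 * l * n := by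
    rw [ht]
    have h3 : (2 * (l : ℤ) + 1) * (2 * s) ≤ (2 * l + 1) * n :=
      mul_le_mul_of_nonneg_left hsn (by linarith)
    have h4 : (0 : ℤ) ≤ l * n := mul_nonneg (by linarith) hnz.le
    have h5 : (2 * (l : ℤ) + 1) * (2 * s) = 2 * ((2 * l + 1) * s) := by ring
    have h6 : (2 * (l : ℤ) + 1) * n = 2 * (l * n) + n := by ring
    have h7 : 8 * (l : ℤ) * n = 8 * (l * n) := by ring
    linarith
  have hkey : (2 * (l : ℤ) + 1) ^ 2 * (4 * n * s - s ^ 2) - 4 * n ^ 2 * (4 * l + 1) =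
      t * (8 * l * n - t) := by
    rw [ht]; ring
  have hkey2 : 0 ≤ t * (8 * (l : ℤ) * n - t) := mul_nonneg ht0 (by linarith)
  have h6 : ((l : ℤ) + 1) * (4 * n ^ 2 * (4 * l + 1)) ≤ (2 * l + 1) ^ 2 * (4 * n ^ 2) := by
    calc ((l : ℤ) + 1) * (4 * n ^ 2 * (4 * l + 1))
        ≤ (l + 1) * ((2 * l + 1) ^ 2 * (4 * n * s - s ^ 2)) :=
          mul_le_mul_of_nonneg_left (by linarith) (by linarith)
      _ = (2 * l + 1) ^ 2 * ((l + 1) * (4 * n * s - s ^ 2)) := by ring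
      _ ≤ (2 * l + 1) ^ 2 * (4 * n ^ 2) := mul_le_mul_of_nonneg_left hD (sq_nonneg _)
  have h7 : 0 < 4 * (n : ℤ) ^ 2 := by positivity
  have h8 : ((l : ℤ) + 1) * (4 * l + 1) ≤ (2 * l + 1) ^ 2 := by
    have h9 : (((l : ℤ) + 1) * (4 * l + 1)) * (4 * n ^ 2) ≤ ((2 * l + 1) ^ 2) * (4 * n ^ 2) := by
      calc (((l : ℤ) + 1) * (4 * l + 1)) * (4 * n ^ 2) = (l + 1) * (4 * n ^ 2 * (4 * l + 1)) := by
            ring
        _ ≤ _ := h6
    exact le_of_mul_le_mul_right h9 h7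
  nlinarith

end Pool.Agent.TKP
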