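import Pool.Agent.TKP.B5
import Pool.Agent.TKP.B7
import Pool.Agent.TKP.B8
import Pool.Agent.TKP.B9
import Pool.Agent.TKP.N1

set_option autoImplicit false

namespace Pool.Agent.TKP

open MvPolynomial

theorem Z1_mem_inf (s : Finset (Ideal Pol)) (P : Pol) : P ∈ s.inf id ↔ ∀ I ∈ s, P ∈ I := by
  simp [Submodule.mem_finsetInf]

/-- the zero lemma -/
theorem zero_lemma (ε : ℤ) (l K : ℕ) (hl : 2 ≤ l) (hK4 : 4 ≤ K) (hKl : l + 1 ≤ K)
    (s : Finset (Ideal Pol)) (hs : ∀ I ∈ s, Module.Finite ℚ (Pol ⧸ I))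
    (hp : ∀ I ∈ s, I.IsPrime) (hst : ∀ I ∈ s, ∀ F ∈ I, psi ε l F ∈ I) (D : ℕ)
    (hD : K * ∑ I ∈ s, cd I ≤ (D + 1) ^ 2) (F : Pol) (hF : Irreducible F)
    (hFpsi : ¬ F ∣ psi ε l F) : ∃ P ∈ BI D D (s.inf id), ¬ F ∣ P := by
  classical
  by_contra hcon
  push Not at hcon
  set w := ∑ I ∈ s, cd I with hwdef
  set d := F.degreeOf 0 with hd
  set e := F.degreeOf 1 with he
  haveI := finite_inf s hs
  have hde : 0 < d + e := degree_pos F hF
  -- dimension of the space
  have hw4 : 4 * w ≤ (D + 1) ^ 2 := le_trans (Nat.mul_le_mul_right _ hK4) hD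
  have hcd : cd (s.inf id) ≤ w := cd_inf s hs
  have hcod := codim_BI D D (s.inf id)
  have hsub : BI D D (s.inf id) ≤ BM D D F := by
    intro P hP
    rw [mem_BM]
    exact ⟨((mem_BI _ _ _ _).1 hP).1, hcon P hP⟩
  haveI : Module.Finite ℚ (BM D D F) := finite_BI D D (Ideal.span {F})
  have hle : Module.finrank ℚ (BI D D (s.inf id)) ≤ Module.finrank ℚ (BM D D F) :=
    Submodule.finrank_mono hsub
  rw [finrank_BM D D F hF.ne_zero, ← hd, ← he] at hle
  have h1 : (D + 1) * (D + 1) ≤ w + (D + 1 - d) * (D + 1 - e) := by omega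
  have hpos : 0 < (D + 1 - d) * (D + 1 - e) := by
    by_contra h0
    have h0' : (D + 1 - d) * (D + 1 - e) = 0 := by omega
    rw [h0'] at h1
    nlinarith [hw4, h1]
  have hdn : d ≤ D + 1 := by
    by_contra h
    have : D + 1 - d = 0 := by omega
    rw [this] at hpos
    simp at hpos
  have hen : e ≤ D + 1 := by
    by_contra h
    have : D + 1 - e = 0 := by omega
    rw [this] at hpos
    simp at hpos
  -- the two parts
  set s1 := s.filter (fun I => F ∈ I) with hs1
  set s2 := s.filter (fun I => F ∉ I) with hs2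
  have hs1s : ∀ I ∈ s1, I ∈ s := fun I hI => (Finset.mem_filter.1 hI).1
  have hs2s : ∀ I ∈ s2, I ∈ s := fun I hI => (Finset.mem_filter.1 hI).1
  have hw2 : ∑ I ∈ s2, cd I ≤ w :=
    Finset.sum_le_sum_of_subset_of_nonneg (Finset.filter_subset _ _) fun _ _ _ => Nat.zero_le _
  set p := (D + 1) - (D + 1) / 2 with hpdef
  obtain ⟨Q, hQ, hFQ⟩ := exists_not_dvd' F hF s2 (fun I hI => hs I (hs2s I hI))
    (fun I hI => hp I (hs2s I hI)) (fun I hI => (Finset.mem_filter.1 hI).2) ((D + 1) / 2)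
    ((D + 1) / 2) (by
      have h3 : (D + 1) < 2 * ((D + 1) / 2 + 1) := by omega
      nlinarith [hw4, hw2, h3])
  haveI := finite_inf s1 (fun I hI => hs I (hs1s I hI))
  have hcd1 : cd (s1.inf id) ≤ 2 * l * (d * e) := by
    have hG : psi ε l F ≠ 0 := by
      intro h0
      rw [h0] at hFpsi
      exact hFpsi (dvd_zero F)
    have hrel : IsRelPrime F (psi ε l F) := by
      rw [hF.isRelPrime_iff_not_dvd]
      exact hFpsi
    have hb := bezout_quot (s1.inf id) F (psi ε l F) hF.ne_zero hG hrel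
      ((Z1_mem_inf _ _).2 fun I hI => (Finset.mem_filter.1 hI).2)
      ((Z1_mem_inf _ _).2 fun I hI => hst I (hs1s I hI) F (Finset.mem_filter.1 hI).2)
    have h4 := degreeOf_psi ε l F 0
    have h5 := degreeOf_psi ε l F 1
    rw [← hd] at h4 hb
    rw [← he] at h5 hb
    calc cd (s1.inf id) ≤ _ := hb
      _ ≤ d * (l * e) + (l * d) * e := by gcongr
      _ = 2 * l * (d * e) := by ring
  have h2 : p * p ≤ 2 * l * (d * e) + (p - d) * (p - e) := by
    by_contra hlt
    push Not at hlt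
    have hp1 : 1 ≤ p := by omega
    obtain ⟨G, hG, hFG⟩ := exists_not_dvd F hF (s1.inf id) (p - 1) (p - 1) (by
      rw [← hd, ← he]
      have h6 : p - 1 + 1 = p := by omega
      rw [h6]
      omega)
    have hGQ : G * Q ∈ BI D D (s.inf id) := by
      rw [mem_BI]
      constructor
      · have h7 := mul_mem_Box ((mem_BI _ _ _ _).1 hG).1 ((mem_BI _ _ _ _).1 hQ).1
        have h8 : p - 1 + (D + 1) / 2 = D := by omega
        rwa [h8] at h7
      · rw [Z1_mem_inf]
        intro I hI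
        by_cases hFI : F ∈ I
        · exact I.mul_mem_right _ ((Z1_mem_inf _ _).1 ((mem_BI _ _ _ _).1 hG).2 I
            (Finset.mem_filter.2 ⟨hI, hFI⟩))
        · exact I.mul_mem_left _ ((Z1_mem_inf _ _).1 ((mem_BI _ _ _ _).1 hQ).2 I
            (Finset.mem_filter.2 ⟨hI, hFI⟩))
    rcases hF.prime.dvd_or_dvd (hcon _ hGQ) with h | h
    · exact hFG h
    · exact hFQ h
  exact numeric (D + 1) w d e l K hK4 hKl hl hD hde hdn hen h1 h2

end Pool.Agent.TKP
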